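import Pool.Agent.Helper96.TB.Riem

/-!
# Bounds of the integrand `GB`
-/

namespace Pool.Agent.Helper9.TB

open Finset MeasureTheory

lemma norm_two_cos {h : ℝ} (hh : 0 < h) (u : ℝ) :
    ‖2 * Complex.cos (Real.pi * ((u : ℂ) + (-h : ℝ) * Complex.I))‖ = Real.exp (ee h u) := by
  have h1 : (Real.pi : ℂ) * ((u : ℂ) + (-h : ℝ) * Complex.I) =
      ((Real.pi * u : ℝ) : ℂ) + ((-(Real.pi * h) : ℝ) : ℂ) * Complex.I := by push_cast; ring
  have hpos : 0 < 2 * (Real.cosh (2 * Real.pi * h) + Real.cos (2 * Real.pi * u)) := by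
    have h1 := cosh_gap hh le_rfl u
    have h2 := cosh_gap_pos hh
    linarith only [h2, h1]
  have h2 : ‖2 * Complex.cos (Real.pi * ((u : ℂ) + (-h : ℝ) * Complex.I))‖ ^ 2 =
      2 * (Real.cosh (2 * Real.pi * h) + Real.cos (2 * Real.pi * u)) := by
    rw [h1, Complex.cos_add_mul_I, norm_mul, mul_pow, ← Complex.normSq_eq_norm_sq
      (Complex.cos _ * _ - _)]
    rw [← Complex.ofReal_cos, ← Complex.ofReal_sin, ← Complex.ofReal_cosh, ← Complex.ofReal_sinh]
    rw [Complex.normSq_apply]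
    simp only [Complex.sub_re, Complex.mul_re, Complex.ofReal_re, Complex.ofReal_im, mul_zero,
      sub_zero, Complex.I_re, Complex.I_im, Complex.mul_im, Complex.sub_im, add_zero, mul_one,
      zero_mul, zero_sub, sub_self, Complex.norm_ofNat]
    rw [Real.cosh_neg, Real.sinh_neg]
    have e1 : Real.cosh (2 * Real.pi * h) = 1 + 2 * Real.sinh (Real.pi * h) ^ 2 := by
      rw [show 2 * Real.pi * h = 2 * (Real.pi * h) by ring, Real.cosh_two_mul, Real.cosh_sq]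
      ring
    have e2 : Real.cos (2 * Real.pi * u) = 2 * Real.cos (Real.pi * u) ^ 2 - 1 := by
      rw [show 2 * Real.pi * u = 2 * (Real.pi * u) by ring, Real.cos_two_mul]
    have e3 := Real.cosh_sq (Real.pi * h)
    have e4 := Real.sin_sq (Real.pi * u)
    rw [e1, e2]
    linear_combination (4 * Real.cos (Real.pi * u) ^ 2) * e3 +
      (4 * Real.sinh (Real.pi * h) ^ 2) * e4
  have h3 : Real.exp (ee h u) ^ 2 =
      2 * (Real.cosh (2 * Real.pi * h) + Real.cos (2 * Real.pi * u)) := by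
    rw [← Real.exp_nat_mul]
    unfold ee
    push_cast
    rw [mul_div_cancel₀ _ (by norm_num : (2 : ℝ) ≠ 0), Real.exp_log hpos]
  rw [← h3] at h2
  exact (pow_left_inj₀ (norm_nonneg _) (Real.exp_pos _).le (by norm_num)).mp h2

lemma norm_Ly_sub {h : ℝ} (hh : 0 < h) (ξ : ℝ) {N : ℕ} (hN : 0 < N) (k : ℕ) :
    ‖Ly (pt ξ h) - lam N k‖ = Real.exp (ee h (ξ + (2 * k + 1) / (2 * N)) +
      ee h (ξ - (2 * k + 1) / (2 * N))) := by
  have hN0 : (N : ℝ) ≠ 0 := by positivity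
  rw [Real.exp_add, ← norm_two_cos hh, ← norm_two_cos hh, ← norm_mul, ← norm_neg]
  congr 1
  unfold Ly lam lamR pt
  have h1 := Complex.cos_add_cos (2 * Real.pi * ((ξ : ℂ) + (-h : ℝ) * Complex.I))
    (((Real.pi * ((2 * k + 1) / N) : ℝ)) : ℂ)
  have e1 : (2 * Real.pi * ((ξ : ℂ) + (-h : ℝ) * Complex.I) +
      (((Real.pi * ((2 * k + 1) / N) : ℝ)) : ℂ)) / 2 =
      Real.pi * (((ξ + (2 * k + 1) / (2 * N) : ℝ) : ℂ) + (-h : ℝ) * Complex.I) := by
    push_cast
    have : (N : ℂ) ≠ 0 := by exact_mod_cast hN0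
    field_simp
    ring
  have e2 : (2 * Real.pi * ((ξ : ℂ) + (-h : ℝ) * Complex.I) -
      (((Real.pi * ((2 * k + 1) / N) : ℝ)) : ℂ)) / 2 =
      Real.pi * (((ξ - (2 * k + 1) / (2 * N) : ℝ) : ℂ) + (-h : ℝ) * Complex.I) := by
    push_cast
    have : (N : ℂ) ≠ 0 := by exact_mod_cast hN0
    field_simp
    ring
  rw [e1, e2] at h1
  rw [← Complex.ofReal_cos] at h1
  push_cast at h1 ⊢
  linear_combination (2 : ℂ) * h1

lemma norm_bb {N k : ℕ} (h0 : 0 < k) (h1 : k < N) :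
    ‖bb N k‖ = Real.exp (2 * Real.log (sb ((k : ℝ) / N))) := by
  have hN : (0 : ℝ) < N := by exact_mod_cast (by omega : 0 < N)
  have hp : 0 < sb ((k : ℝ) / N) := sb_pos (by positivity) (by
    rw [div_lt_one hN]; exact_mod_cast h1)
  unfold bb
  rw [Complex.norm_real, Real.norm_eq_abs, abs_neg, abs_of_nonneg (by positivity), two_mul,
    Real.exp_add, Real.exp_log hp]
  ring

lemma norm_gauss (r N : ℕ) (ξ h : ℝ) :
    ‖Complex.exp (Real.pi * Complex.I * (r * (N : ℝ)) * (pt ξ h) ^ 2)‖ =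
      Real.exp (N * (2 * Real.pi * r * ξ * h)) := by
  rw [Complex.norm_exp]
  congr 1
  unfold pt
  have : (Real.pi : ℂ) * Complex.I * (r * ((N : ℝ) : ℂ)) * ((ξ : ℂ) + (-h : ℝ) * Complex.I) ^ 2 =
      ((N * (2 * Real.pi * r * ξ * h) : ℝ) : ℂ) +
        ((Real.pi * (r * N) * (ξ ^ 2 - h ^ 2) : ℝ) : ℂ) * Complex.I := by
    push_cast
    linear_combination (-(2 * Real.pi * (r * (N : ℂ)) * ξ * h) + Real.pi * (r * (N : ℂ)) * h ^ 2 *
      Complex.I) * Complex.I_sq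
  rw [this, Complex.add_re, Complex.ofReal_re, Complex.re_ofReal_mul, Complex.I_re, mul_zero,
    add_zero]

lemma norm_sin_sq (ξ h : ℝ) : ‖Complex.sin (2 * Real.pi * pt ξ h)‖ ^ 2 =
    Real.sin (2 * Real.pi * ξ) ^ 2 + Real.sinh (2 * Real.pi * h) ^ 2 := by
  unfold pt
  have h1 : (2 : ℂ) * Real.pi * ((ξ : ℂ) + (-h : ℝ) * Complex.I) =
      ((2 * Real.pi * ξ : ℝ) : ℂ) + ((-(2 * Real.pi * h) : ℝ) : ℂ) * Complex.I := by push_cast; ring
  rw [h1, Complex.sin_add_mul_I, ← Complex.normSq_eq_norm_sq]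
  rw [← Complex.ofReal_cos, ← Complex.ofReal_sin, ← Complex.ofReal_cosh, ← Complex.ofReal_sinh]
  rw [Complex.normSq_apply]
  simp only [Complex.add_re, Complex.mul_re, Complex.ofReal_re, Complex.ofReal_im, mul_zero,
      sub_zero, Complex.I_re, Complex.I_im, Complex.mul_im, Complex.add_im, add_zero, mul_one,
      zero_add, zero_mul]
  rw [Real.cosh_neg, Real.sinh_neg]
  have e3 := Real.cosh_sq (2 * Real.pi * h)
  have e4 := Real.cos_sq' (2 * Real.pi * ξ)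
  linear_combination (Real.sin (2 * Real.pi * ξ) ^ 2) * e3 +
      (Real.sinh (2 * Real.pi * h) ^ 2) * e4

lemma norm_dLy_le (ξ h : ℝ) : ‖dLy (pt ξ h)‖ ≤ 4 * Real.pi * Real.cosh (2 * Real.pi * h) := by
  unfold dLy
  have h1 := norm_sin_sq ξ h
  have h2 : ‖Complex.sin (2 * Real.pi * pt ξ h)‖ ≤ Real.cosh (2 * Real.pi * h) := by
    apply le_of_sq_le_sq _ (Real.cosh_pos _).le
    rw [h1, Real.cosh_sq]
    have := Real.sin_sq_le_one (2 * Real.pi * ξ)
    linarith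
  have e : ‖(4 : ℂ) * (Real.pi : ℂ)‖ = 4 * Real.pi := by
    rw [norm_mul, Complex.norm_real, Real.norm_eq_abs, abs_of_pos Real.pi_pos]; norm_num
  rw [norm_mul, e]
  gcongr

lemma norm_dLy_ge (ξ h : ℝ) :
    4 * Real.pi * Real.sinh (2 * Real.pi * h) ≤ ‖dLy (pt ξ h)‖ := by
  unfold dLy
  have h1 := norm_sin_sq ξ h
  have h2 : Real.sinh (2 * Real.pi * h) ≤ ‖Complex.sin (2 * Real.pi * pt ξ h)‖ := by
    apply le_of_sq_le_sq _ (norm_nonneg _)
    rw [h1]
    have := sq_nonneg (Real.sin (2 * Real.pi * ξ))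
    linarith
  have e : ‖(4 : ℂ) * (Real.pi : ℂ)‖ = 4 * Real.pi := by
    rw [norm_mul, Complex.norm_real, Real.norm_eq_abs, abs_of_pos Real.pi_pos]; norm_num
  rw [norm_mul, e]
  gcongr

/-- the norm of `GB` in logarithmic form -/
lemma norm_GB {r N l n : ℕ} (hln : l + n < N) {h : ℝ} (hh : 0 < h) (ξ : ℝ) :
    ‖GB r N l n (pt ξ h)‖ = Real.exp ((∑ k ∈ Ico (l + 1) (l + n + 1), 2 * Real.log (sb (k / N))) +
      N * (2 * Real.pi * r * ξ * h) - ∑ k ∈ Ico l (l + n + 1),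
        (ee h (ξ + (2 * k + 1) / (2 * N)) + ee h (ξ - (2 * k + 1) / (2 * N)))) *
      ‖dLy (pt ξ h)‖ := by
  have hN : 0 < N := by omega
  unfold GB GG KR
  rw [norm_mul, norm_mul, norm_prod, norm_gauss, norm_div, norm_prod]
  have h1 : ∏ k ∈ Ico (l + 1) (l + n + 1), ‖bb N k‖ =
      Real.exp (∑ k ∈ Ico (l + 1) (l + n + 1), 2 * Real.log (sb (k / N))) := by
    rw [Real.exp_sum]
    apply prod_congr rfl
    intro k hk
    rw [Finset.mem_Ico] at hk
    exact norm_bb (by omega) (by omega)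
  have h2 : ∏ k ∈ Ico l (l + n + 1), ‖Ly (pt ξ h) - lam N k‖ =
      Real.exp (∑ k ∈ Ico l (l + n + 1),
        (ee h (ξ + (2 * k + 1) / (2 * N)) + ee h (ξ - (2 * k + 1) / (2 * N)))) := by
    rw [Real.exp_sum]
    apply prod_congr rfl
    intro k _
    exact norm_Ly_sub hh ξ hN k
  rw [h1, h2, Real.exp_sub, Real.exp_add]
  field_simp

lemma N_Kf {r N l m : ℕ} {h : ℝ} (hh : 0 < h) (ξ : ℝ) :
    (N : ℝ) * Kf r h ξ ((l : ℝ) / N) ((m : ℕ) / N) =
      N * (2 * Real.pi * r * ξ * h) +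
      N * (∫ x in ((l : ℝ) / N)..((m : ℝ) / N), 2 * Real.log (2 * Real.sin (Real.pi * x))) -
      N * ∫ x in ((l : ℝ) / N)..((m : ℝ) / N), (ee h (ξ + x) + ee h (ξ - x)) := by
  unfold Kf ff
  have hc := ee_cont hh
  have i1 : IntervalIntegrable (fun x : ℝ => 2 * Real.log (2 * Real.sin (Real.pi * x))) volume
      ((l : ℝ) / N) ((m : ℝ) / N) := by
    apply IntervalIntegrable.const_mul
    have := (Kashaev.integrable_h (Real.pi * ((l : ℝ) / N)) (Real.pi * ((m : ℝ) / N))).comp_mul_left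
      (c := Real.pi)
    have e1 : Real.pi * ((l : ℝ) / N) / Real.pi = (l : ℝ) / N := by field_simp
    have e2 : Real.pi * ((m : ℝ) / N) / Real.pi = (m : ℝ) / N := by field_simp
    rw [e1, e2] at this
    simpa only [Real.log_abs] using this
  have i2 : IntervalIntegrable (fun x : ℝ => ee h (ξ + x) + ee h (ξ - x)) volume
      ((l : ℝ) / N) ((m : ℝ) / N) := by
    apply Continuous.intervalIntegrable
    fun_prop
  have e : (fun x : ℝ => 2 * Real.log (2 * Real.sin (Real.pi * x)) - ee h (ξ + x) - ee h (ξ - x)) =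
      fun x => 2 * Real.log (2 * Real.sin (Real.pi * x)) - (ee h (ξ + x) + ee h (ξ - x)) := by
    funext x; ring
  rw [e, intervalIntegral.integral_sub i1 i2]
  ring

lemma exp_log_le {C : ℝ} {N : ℕ} (hN : 2 ≤ N) :
    Real.exp (C * (1 + Real.log N)) ≤ Real.exp C * (N : ℝ) ^ (⌈C⌉₊) := by
  have hNR : (2 : ℝ) ≤ N := by exact_mod_cast hN
  have hlogN : 0 ≤ Real.log N := Real.log_nonneg (by linarith only [hNR])
  rw [mul_add, mul_one, Real.exp_add]
  gcongr
  have h1 : C ≤ (⌈C⌉₊ : ℝ) := Nat.le_ceil C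
  calc Real.exp (C * Real.log N) ≤ Real.exp ((⌈C⌉₊ : ℝ) * Real.log N) := by
        apply Real.exp_le_exp.mpr; gcongr
    _ = (N : ℝ) ^ (⌈C⌉₊) := by
        rw [Real.exp_nat_mul, Real.exp_log (by linarith only [hNR])]

/-- log-norm estimate -/
lemma GB_log (r : ℕ) {δ : ℝ} (hδ : 0 < δ) : ∃ C : ℝ, 0 < C ∧ ∀ N l n : ℕ, 2 ≤ N → l + n < N →
    ∀ h ≥ δ, ∀ ξ : ℝ,
    |((∑ k ∈ Ico (l + 1) (l + n + 1), 2 * Real.log (sb (k / N))) +
      N * (2 * Real.pi * r * ξ * h) - ∑ k ∈ Ico l (l + n + 1),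
        (ee h (ξ + (2 * k + 1) / (2 * N)) + ee h (ξ - (2 * k + 1) / (2 * N)))) -
      N * Kf r h ξ (l / N) ((l + n + 1 : ℕ) / N)| ≤ C * (1 + Real.log N) := by
  obtain ⟨C1, h1⟩ := riem_ee hδ
  obtain ⟨C2, h2⟩ := riem_sb
  refine ⟨|C1| + |C2| + 1, by positivity, ?_⟩
  intro N l n hN hln h hh ξ
  have hNR : (2 : ℝ) ≤ N := by exact_mod_cast hN
  have hlogN : 0 ≤ Real.log N := Real.log_nonneg (by linarith only [hNR])
  have a1 := abs_le.mp (h1 N l (l + n + 1) (by omega) (by omega) (by omega) h hh ξ)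
  have a2 := abs_le.mp (h2 N l (l + n + 1) hN (by omega) (by omega))
  rw [N_Kf (hδ.trans_le hh)]
  have b1 : C1 ≤ |C1| * (1 + Real.log N) := by
    have := le_abs_self C1
    nlinarith only [abs_nonneg C1, a1, hlogN, this]
  have b2 : C2 * (1 + Real.log N) ≤ |C2| * (1 + Real.log N) := by
    have := le_abs_self C2
    gcongr
  have b3 : (|C1| + |C2| + 1) * (1 + Real.log N) = |C1| * (1 + Real.log N) +
    |C2| * (1 + Real.log N) + (1 + Real.log N) := by ring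
  rw [b3, abs_le]
  constructor <;> linarith only [b2, b1, a2, a1, hlogN]

theorem GB_le (r : ℕ) {δ hm : ℝ} (hδ : 0 < δ) : ∃ (C : ℝ) (k : ℕ), 0 < C ∧ ∀ N l n : ℕ, 2 ≤ N →
    l + n < N → ∀ h ∈ Set.Icc δ hm, ∀ ξ ∈ Set.Icc (-1/2 : ℝ) (1/2),
    ‖GB r N l n (pt ξ h)‖ ≤ C * N ^ k * Real.exp (N * Kf r h ξ (l / N) ((l + n + 1 : ℕ) / N)) := by
  obtain ⟨C, hC, hb⟩ := GB_log r hδ
  refine ⟨Real.exp C * (4 * Real.pi * Real.cosh (2 * Real.pi * hm)), ⌈C⌉₊, by
    have := Real.cosh_pos (2 * Real.pi * hm)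
    have := Real.pi_pos
    positivity, ?_⟩
  intro N l n hN hln h hh ξ _
  have hh0 : 0 < h := hδ.trans_le hh.1
  rw [norm_GB hln hh0]
  have h1 := (abs_le.mp (hb N l n hN hln h hh.1 ξ)).2
  have h2 := norm_dLy_le ξ h
  have h3 : Real.cosh (2 * Real.pi * h) ≤ Real.cosh (2 * Real.pi * hm) := by
    have hhm : 0 < hm := hh0.trans_le hh.2
    rw [Real.cosh_le_cosh, abs_of_pos (by positivity), abs_of_pos (by positivity)]
    have := hh.2
    gcongr
  have h4 := exp_log_le (C := C) hN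
  calc _ ≤ Real.exp (N * Kf r h ξ (l / N) ((l + n + 1 : ℕ) / N) + C * (1 + Real.log N)) *
        (4 * Real.pi * Real.cosh (2 * Real.pi * hm)) := by
        gcongr
        · linarith only [h1]
        · exact h2.trans (by gcongr)
    _ ≤ (Real.exp (N * Kf r h ξ (l / N) ((l + n + 1 : ℕ) / N)) *
          (Real.exp C * (N : ℝ) ^ (⌈C⌉₊))) * (4 * Real.pi * Real.cosh (2 * Real.pi * hm)) := by
        rw [Real.exp_add]
        have := Real.cosh_pos (2 * Real.pi * hm)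
        have := Real.pi_pos
        gcongr
    _ = _ := by ring

theorem GB_ge (r : ℕ) {δ hm : ℝ} (hδ : 0 < δ) : ∃ (C : ℝ) (k : ℕ), 0 < C ∧ ∀ N l n : ℕ, 2 ≤ N →
    l + n < N → ∀ h ∈ Set.Icc δ hm, ∀ ξ ∈ Set.Icc (-1/2 : ℝ) (1/2),
    Real.exp (N * Kf r h ξ (l / N) ((l + n + 1 : ℕ) / N)) ≤ C * N ^ k * ‖GB r N l n (pt ξ h)‖ := by
  obtain ⟨C, hC, hb⟩ := GB_log r hδ
  have hs : 0 < Real.sinh (2 * Real.pi * δ) := Real.sinh_pos_iff.mpr (by positivity)
  have hpi := Real.pi_pos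
  refine ⟨Real.exp C * (4 * Real.pi * Real.sinh (2 * Real.pi * δ))⁻¹, ⌈C⌉₊, by positivity, ?_⟩
  intro N l n hN hln h hh ξ _
  have hh0 : 0 < h := hδ.trans_le hh.1
  rw [norm_GB hln hh0]
  have h1 := (abs_le.mp (hb N l n hN hln h hh.1 ξ)).1
  have h2 := norm_dLy_ge ξ h
  have h3 : Real.sinh (2 * Real.pi * δ) ≤ Real.sinh (2 * Real.pi * h) := by
    apply Real.sinh_le_sinh.mpr
    have := hh.1
    gcongr
  have h4 := exp_log_le (C := C) hN
  set X := (∑ k ∈ Ico (l + 1) (l + n + 1), 2 * Real.log (sb (k / N))) +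
      N * (2 * Real.pi * r * ξ * h) - ∑ k ∈ Ico l (l + n + 1),
        (ee h (ξ + (2 * k + 1) / (2 * N)) + ee h (ξ - (2 * k + 1) / (2 * N))) with hX
  calc Real.exp (N * Kf r h ξ (l / N) ((l + n + 1 : ℕ) / N))
      ≤ Real.exp (C * (1 + Real.log N) + X) := by
        apply Real.exp_le_exp.mpr; linarith only [h1]
    _ ≤ (Real.exp C * (N : ℝ) ^ (⌈C⌉₊)) * Real.exp X := by
        rw [Real.exp_add]; gcongr
    _ = (Real.exp C * (N : ℝ) ^ (⌈C⌉₊)) * Real.exp X * ((4 * Real.pi * Real.sinh (2 * Real.pi * δ))⁻¹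
          * (4 * Real.pi * Real.sinh (2 * Real.pi * δ))) := by
        rw [inv_mul_cancel₀ (by positivity), mul_one]
    _ ≤ (Real.exp C * (N : ℝ) ^ (⌈C⌉₊)) * Real.exp X * ((4 * Real.pi * Real.sinh (2 * Real.pi * δ))⁻¹
          * ‖dLy (pt ξ h)‖) := by
        gcongr
        exact le_trans (by gcongr) h2
    _ = _ := by ring

lemma norm_Ly_sub_side {h : ℝ} {ξ : ℝ} (hξ : ξ = 1 / 2 ∨ ξ = -1 / 2) {N : ℕ} (hN : 0 < N)
    (k : ℕ) : sb ((2 * k + 1) / (2 * N)) ^ 2 ≤ ‖Ly (pt ξ h) - lam N k‖ := by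
  have hN0 : (N : ℝ) ≠ 0 := by positivity
  have h1 : Ly (pt ξ h) - lam N k =
      ((2 * Real.cosh (2 * Real.pi * h) - 2 * Real.cos (Real.pi * ((2 * k + 1) / N)) : ℝ) : ℂ) := by
    unfold Ly lam lamR pt
    have e1 : Complex.cos (2 * Real.pi * ((ξ : ℂ) + (-h : ℝ) * Complex.I)) =
        - ((Real.cosh (2 * Real.pi * h) : ℝ) : ℂ) := by
      rw [Complex.ofReal_cosh, ← Complex.cos_mul_I]
      rcases hξ with rfl | rfl
      · have : (2 : ℂ) * Real.pi * (((1 / 2 : ℝ) : ℂ) + (-h : ℝ) * Complex.I) =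
          Real.pi - ((2 * Real.pi * h : ℝ) : ℂ) * Complex.I := by push_cast; ring
        rw [this, Complex.cos_pi_sub]
      · have : (2 : ℂ) * Real.pi * (((-1 / 2 : ℝ) : ℂ) + (-h : ℝ) * Complex.I) =
          -(((2 * Real.pi * h : ℝ) : ℂ) * Complex.I + Real.pi) := by push_cast; ring
        rw [this, Complex.cos_neg, Complex.cos_add_pi]
    rw [e1]
    push_cast
    ring
  rw [h1, Complex.norm_real, Real.norm_eq_abs]
  refine le_trans ?_ (le_abs_self _)
  have h2 := Real.one_le_cosh (2 * Real.pi * h)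
  have h3 : Real.cos (Real.pi * ((2 * k + 1) / N)) =
      1 - 2 * Real.sin (Real.pi * ((2 * k + 1) / (2 * N))) ^ 2 := by
    have e : Real.pi * ((2 * (k : ℝ) + 1) / N) = 2 * (Real.pi * ((2 * k + 1) / (2 * N))) := by
      field_simp
    rw [e, Real.cos_two_mul, Real.cos_sq']
    ring
  rw [h3]
  unfold sb
  linarith only [sq_nonneg (Real.sin (Real.pi * ((2 * k + 1) / (2 * N)))), h2]

theorem GB_side (r : ℕ) (hm : ℝ) : ∃ (C : ℝ) (k : ℕ), 0 < C ∧ ∀ N l n : ℕ, 2 ≤ N → l + n < N →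
    ∀ h ∈ Set.Icc 0 hm, ‖GB r N l n (pt (-1/2) h)‖ ≤ C * N ^ k ∧
      ‖GB r N l n (pt (1/2) h)‖ ≤ C * N ^ k * Real.exp (N * (Real.pi * r * h)) := by
  obtain ⟨C1, h1⟩ := riem_sb
  obtain ⟨C2, h2⟩ := riem_mid
  have hcm := Real.cosh_pos (2 * Real.pi * hm)
  have hpi := Real.pi_pos
  refine ⟨Real.exp (|C1| + |C2|) * (4 * Real.pi * Real.cosh (2 * Real.pi * hm)), ⌈|C1| + |C2|⌉₊,
    by positivity, ?_⟩
  intro N l n hN hln h hh
  have hNR : (2 : ℝ) ≤ N := by exact_mod_cast hN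
  have hlogN : 0 ≤ Real.log N := Real.log_nonneg (by linarith)
  have key : ∀ ξ : ℝ, (ξ = 1 / 2 ∨ ξ = -1 / 2) → ‖GB r N l n (pt ξ h)‖ ≤
      Real.exp (|C1| + |C2|) * (4 * Real.pi * Real.cosh (2 * Real.pi * hm)) *
        (N : ℝ) ^ (⌈|C1| + |C2|⌉₊) * Real.exp (N * (2 * Real.pi * r * ξ * h)) := by
    intro ξ hξ
    unfold GB GG KR
    rw [norm_mul, norm_mul, norm_prod, norm_gauss, norm_div, norm_prod]
    have a1 := abs_le.mp (h1 N l (l + n + 1) hN (by omega) (by omega))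
    have a2 := abs_le.mp (h2 N l (l + n + 1) hN (by omega) (by omega))
    have b1 : ∏ k ∈ Ico (l + 1) (l + n + 1), ‖bb N k‖ =
        Real.exp (∑ k ∈ Ico (l + 1) (l + n + 1), 2 * Real.log (sb (k / N))) := by
      rw [Real.exp_sum]
      apply prod_congr rfl
      intro k hk
      rw [Finset.mem_Ico] at hk
      exact norm_bb (by omega) (by omega)
    have b2 : Real.exp (∑ k ∈ Ico l (l + n + 1), 2 * Real.log (sb ((2 * k + 1) / (2 * N)))) ≤
        ∏ k ∈ Ico l (l + n + 1), ‖Ly (pt ξ h) - lam N k‖ := by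
      rw [Real.exp_sum]
      apply prod_le_prod
      · intro k _; exact (Real.exp_pos _).le
      · intro k hk
        rw [Finset.mem_Ico] at hk
        refine le_trans (le_of_eq ?_) (norm_Ly_sub_side (h := h) hξ (by omega : 0 < N) k)
        have hp : 0 < sb ((2 * (k : ℝ) + 1) / (2 * N)) := sb_pos (by positivity) (by
          rw [div_lt_one (by positivity)]
          have : (k : ℝ) + 1 ≤ N := by exact_mod_cast (by omega : k + 1 ≤ N)
          linarith only [this])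
        rw [two_mul (Real.log _), Real.exp_add, Real.exp_log hp]
        ring
    have b3 : ‖dLy (pt ξ h)‖ ≤ 4 * Real.pi * Real.cosh (2 * Real.pi * hm) := by
      refine (norm_dLy_le ξ h).trans ?_
      have : Real.cosh (2 * Real.pi * h) ≤ Real.cosh (2 * Real.pi * hm) := by
        rw [Real.cosh_le_cosh, abs_of_nonneg (by have := hh.1; positivity),
          abs_of_nonneg (by have := hh.1.trans hh.2; positivity)]
        have := hh.2
        gcongr
      gcongr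
    rw [b1]
    have b4 := exp_log_le (C := |C1| + |C2|) hN
    have c1 : C1 * (1 + Real.log N) ≤ |C1| * (1 + Real.log N) := by
      have := le_abs_self C1
      gcongr
    have c2 : C2 * (1 + Real.log N) ≤ |C2| * (1 + Real.log N) := by
      have := le_abs_self C2
      gcongr
    have c3 : (|C1| + |C2|) * (1 + Real.log N) = |C1| * (1 + Real.log N) +
      |C2| * (1 + Real.log N) := by ring
    set S1 := ∑ k ∈ Ico (l + 1) (l + n + 1), 2 * Real.log (sb (k / N)) with hS1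
    set S2 := ∑ k ∈ Ico l (l + n + 1), 2 * Real.log (sb ((2 * k + 1) / (2 * N))) with hS2
    calc Real.exp S1 * (Real.exp (N * (2 * Real.pi * r * ξ * h)) * (‖dLy (pt ξ h)‖ /
          ∏ k ∈ Ico l (l + n + 1), ‖Ly (pt ξ h) - lam N k‖))
        ≤ Real.exp S1 * (Real.exp (N * (2 * Real.pi * r * ξ * h)) *
          ((4 * Real.pi * Real.cosh (2 * Real.pi * hm)) / Real.exp S2)) := by
          gcongr
      _ = Real.exp (S1 - S2) * (4 * Real.pi * Real.cosh (2 * Real.pi * hm)) *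
          Real.exp (N * (2 * Real.pi * r * ξ * h)) := by
          rw [Real.exp_sub]; ring
      _ ≤ (Real.exp (|C1| + |C2|) * (N : ℝ) ^ (⌈|C1| + |C2|⌉₊)) *
          (4 * Real.pi * Real.cosh (2 * Real.pi * hm)) *
          Real.exp (N * (2 * Real.pi * r * ξ * h)) := by
          gcongr
          refine le_trans ?_ b4
          apply Real.exp_le_exp.mpr
          rw [c3]
          linarith only [a2, a1, c2, c1]
      _ = _ := by ring
  constructor
  · refine (key (-1 / 2) (Or.inr rfl)).trans ?_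
    have : Real.exp (N * (2 * Real.pi * r * (-1 / 2) * h)) ≤ 1 := by
      rw [Real.exp_le_one_iff]
      have h3 : 0 ≤ (N : ℝ) * (Real.pi * r * h) := by have := hh.1; positivity
      linarith only [h3]
    calc _ ≤ Real.exp (|C1| + |C2|) * (4 * Real.pi * Real.cosh (2 * Real.pi * hm)) *
        (N : ℝ) ^ (⌈|C1| + |C2|⌉₊) * 1 := by gcongr
      _ = _ := by ring
  · refine (key (1 / 2) (Or.inl rfl)).trans (le_of_eq ?_)
    congr 2
    ring

end Pool.Agent.Helper9.TB
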