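import Pool.Agent.Helper96.TB.E2c
import Pool.Agent.Helper11.Kash.Loba
import Pool.Agent.Helper9.TB.GFDefs2

/-!
# The maximum of the volume functional of the bundles
-/

set_option autoImplicit false

namespace Pool.Agent.Helper96.TB

open Real Complex
open Pool.Agent.Helper9.TB (Lob ee ll win KK kap x0 WW Saddle bx by' BAdm bvol)
open Pool.Agent.Helper5.TB

variable {r : ℕ} {h ξ : ℝ}

lemma arg_mem {z : ℂ} (hz : 0 < z.im) : 0 < arg z ∧ arg z < π := by
  constructor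
  · apply lt_of_le_of_ne (Complex.arg_nonneg_iff.2 hz.le)
    intro h0
    have := Complex.arg_eq_zero_iff.1 h0.symm
    linarith [this.2]
  · exact Complex.arg_lt_pi_iff.2 (Or.inr hz.ne')

/-- the law of sines for the triangle `0, 1, z` -/
lemma tri {z : ℂ} (hz : 0 < z.im) :
    0 < arg z ∧ 0 < arg (1 - z)⁻¹ ∧ 0 < arg (1 - z⁻¹) ∧
    arg z + arg (1 - z)⁻¹ + arg (1 - z⁻¹) = π ∧
    Real.log (2 * Real.sin (arg (1 - z)⁻¹)) - Real.log (2 * Real.sin (arg (1 - z⁻¹))) =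
      Real.log ‖z‖ ∧
    Real.log (2 * Real.sin (arg z)) - Real.log (2 * Real.sin (arg (1 - z⁻¹))) =
      Real.log ‖1 - z‖ := by
  have h0 : z ≠ 0 := by intro h; rw [h] at hz; simp at hz
  have h1 : z ≠ 1 := by intro h; rw [h] at hz; simp at hz
  have h1' : 1 - z ≠ 0 := sub_ne_zero.2 (Ne.symm h1)
  have n0 : 0 < ‖z‖ := norm_pos_iff.2 h0
  have n1 : 0 < ‖1 - z‖ := norm_pos_iff.2 h1'
  have q0 : 0 < Complex.normSq z := Complex.normSq_pos.2 h0
  have q1 : 0 < Complex.normSq (1 - z) := Complex.normSq_pos.2 h1'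
  have i1 : ((1 - z)⁻¹).im = z.im / Complex.normSq (1 - z) := by
    rw [Complex.inv_im]; simp
  have i2 : (1 - z⁻¹).im = z.im / Complex.normSq z := by
    rw [Complex.sub_im, Complex.inv_im, Complex.one_im]; ring
  have i1' : 0 < ((1 - z)⁻¹).im := by rw [i1]; positivity
  have i2' : 0 < (1 - z⁻¹).im := by rw [i2]; positivity
  obtain ⟨a0, a1⟩ := arg_mem hz
  obtain ⟨b0, b1⟩ := arg_mem i1'
  obtain ⟨c0, c1⟩ := arg_mem i2'
  have ea : (arg (1 - z)⁻¹ : Real.Angle) = - (arg (1 - z) : Real.Angle) :=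
    Complex.arg_inv_coe_angle _
  have eb : (arg (1 - z⁻¹) : Real.Angle) = (arg (1 - z) : Real.Angle) - (arg z : Real.Angle) +
      (π : ℝ) := by
    have : 1 - z⁻¹ = -((1 - z) / z) := by field_simp; ring
    rw [this, arg_neg_angle (div_ne_zero h1' h0), Complex.arg_div_coe_angle h1' h0]
  have hsum : arg z + arg (1 - z)⁻¹ + arg (1 - z⁻¹) = π := by
    have e : ((arg z + arg (1 - z)⁻¹ + arg (1 - z⁻¹) : ℝ) : Real.Angle) = ((π : ℝ) : Real.Angle) := by
      rw [Real.Angle.coe_add, Real.Angle.coe_add, ea, eb]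
      abel
    rw [Real.Angle.angle_eq_iff_two_pi_dvd_sub] at e
    obtain ⟨k, hk⟩ := e
    have hpi := Real.pi_pos
    have k1 : (-1 : ℝ) < k := by
      by_contra hc; push Not at hc; nlinarith only [hc, hk, c0, b0, a1, a0]
    have k2 : (k : ℝ) < 1 := by
      by_contra hc; push Not at hc; nlinarith only [hc, a0, hk, c1, b1, a1]
    have k3 : (-1 : ℤ) < k := by exact_mod_cast k1
    have k4 : k < 1 := by exact_mod_cast k2
    have k5 : k = 0 := by omega
    rw [k5] at hk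
    simp at hk
    linarith only [hk]
  have sa : Real.sin (arg z) = z.im / ‖z‖ := Complex.sin_arg _
  have sb : Real.sin (arg (1 - z)⁻¹) = z.im / ‖1 - z‖ := by
    rw [Complex.sin_arg, i1, norm_inv, Complex.normSq_eq_norm_sq]
    field_simp
  have sc : Real.sin (arg (1 - z⁻¹)) = z.im / (‖z‖ * ‖1 - z‖) := by
    have : 1 - z⁻¹ = -((1 - z) / z) := by field_simp; ring
    rw [Complex.sin_arg, i2, this, norm_neg, norm_div, Complex.normSq_eq_norm_sq]
    field_simp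
  refine ⟨a0, b0, c0, hsum, ?_, ?_⟩
  · rw [sb, sc, ← Real.log_div (by positivity) (by positivity)]
    congr 1; field_simp
  · rw [sa, sc, ← Real.log_div (by positivity) (by positivity)]
    congr 1; field_simp

/-! ### The critical point -/

/-- the shape of the layer `i` -/
noncomputable def UU (r : ℕ) (h ξ : ℝ) (i : ℤ) : ℂ := vj r h ξ (i % r)

/-- the critical pleating angles -/
noncomputable def wst (r : ℕ) (h ξ : ℝ) (i : ℤ) : ℝ := π - arg (UU r h ξ i)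

lemma vj_symm (r : ℕ) (h ξ : ℝ) (j : ℤ) : vj r h ξ (r - j) = vj r h ξ j := by
  unfold vj; rw [aj_symm]

lemma UU_per (r : ℕ) (h ξ : ℝ) (i : ℤ) : UU r h ξ (i + r) = UU r h ξ i := by
  unfold UU; rw [Int.add_emod_right]

lemma UU_succ (hr : 4 ≤ r) (h ξ : ℝ) (i : ℤ) : UU r h ξ (i + 1) = vj r h ξ (i % r + 1) := by
  unfold UU
  have hr0 : (0 : ℤ) < r := by exact_mod_cast (by omega : 0 < r)
  have h0 := Int.emod_nonneg i hr0.ne'
  have h1 := Int.emod_lt_of_pos i hr0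
  rcases lt_or_eq_of_le (by omega : i % r + 1 ≤ r) with h2 | h2
  · congr 1
    rw [Int.add_emod, Int.emod_eq_of_lt (by norm_num : (0 : ℤ) ≤ 1) (by omega : (1 : ℤ) < r),
      Int.emod_eq_of_lt (by omega) h2]
  · have e : (i + 1) % r = 0 := by
      rw [Int.add_emod, Int.emod_eq_of_lt (by norm_num : (0 : ℤ) ≤ 1) (by omega : (1 : ℤ) < r),
        h2, Int.emod_self]
    rw [e, h2, ← vj_symm, sub_zero]

lemma UU_pred (hr : 4 ≤ r) (h ξ : ℝ) (i : ℤ) (hi : ¬ (r : ℤ) ∣ i) :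
    UU r h ξ (i - 1) = vj r h ξ (i % r - 1) := by
  unfold UU
  have hr0 : (0 : ℤ) < r := by exact_mod_cast (by omega : 0 < r)
  have h0 := Int.emod_nonneg i hr0.ne'
  have h1 := Int.emod_lt_of_pos i hr0
  have h2 : i % r ≠ 0 := fun h3 => hi (Int.dvd_of_emod_eq_zero h3)
  congr 1
  rw [Int.sub_emod, Int.emod_eq_of_lt (by norm_num : (0 : ℤ) ≤ 1) (by omega : (1 : ℤ) < r),
    Int.emod_eq_of_lt (by omega) (by omega)]

lemma UU_hinge (hr : 4 ≤ r) (h ξ : ℝ) {i : ℤ} (hi : (r : ℤ) ∣ i) :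
    UU r h ξ i = vj r h ξ 0 ∧ UU r h ξ (i + 1) = vj r h ξ 1 ∧ UU r h ξ (i - 1) = vj r h ξ 1 := by
  have hr0 : (0 : ℤ) < r := by exact_mod_cast (by omega : 0 < r)
  have e0 : i % r = 0 := Int.emod_eq_zero_of_dvd hi
  refine ⟨?_, ?_, ?_⟩
  · unfold UU; rw [e0]
  · rw [UU_succ hr, e0, zero_add]
  · unfold UU
    have e1 : (i - 1) % r = r - 1 := by
      obtain ⟨k, rfl⟩ := hi
      have : (r : ℤ) * k - 1 = (r - 1) + r * (k - 1) := by ring
      rw [this, Int.add_mul_emod_self_left, Int.emod_eq_of_lt (by omega) (by omega)]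
    rw [e1, vj_symm]

lemma UU_im_pos (hr : 4 ≤ r) (H : Saddle ((r : ℝ) / 2) (1 / r) h ξ) (i : ℤ) :
    0 < (UU r h ξ i).im := by
  have hr0 : (0 : ℤ) < r := by exact_mod_cast (by omega : 0 < r)
  exact vj_im_pos hr H (Int.emod_nonneg i hr0.ne') (Int.emod_lt_of_pos i hr0).le

lemma one_sub_vj {h : ℝ} (hh : 0 < h) (r : ℕ) (ξ : ℝ) (j : ℤ) :
    1 - vj r h ξ j = -(aj r h ξ (j - 1) * aj r h ξ (j + 1) / ss h ξ ^ 2) := by
  have hs := ss_ne hh ξ
  unfold vj
  rw [aj_mul]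
  field_simp
  ring

lemma UU_fan (hr : 4 ≤ r) (hh : 0 < h) {i : ℤ} (hi : ¬ (r : ℤ) ∣ i) :
    (1 - UU r h ξ i) ^ 2 = UU r h ξ (i - 1) * UU r h ξ (i + 1) := by
  rw [UU_succ hr, UU_pred hr _ _ _ hi]
  have hs := ss_ne hh ξ
  have : UU r h ξ i = vj r h ξ (i % r) := rfl
  rw [this, one_sub_vj hh]
  unfold vj
  ring

lemma norm_UU_hinge (hr : 4 ≤ r) (H : Saddle ((r : ℝ) / 2) (1 / r) h ξ) {i : ℤ}
    (hi : (r : ℤ) ∣ i) : ‖UU r h ξ i‖ = 1 ∧ ‖1 - UU r h ξ i‖ = ‖UU r h ξ (i + 1)‖ := by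
  have B := basic2 hr H
  have hs := ss_ne B.hh ξ
  have ns : ‖ss h ξ‖ ≠ 0 := norm_ne_zero_iff.2 hs
  obtain ⟨e0, e1, -⟩ := UU_hinge hr h ξ hi
  rw [e0, e1]
  have k0 : aj r h ξ 0 = aj r h ξ r := by rw [← aj_symm r h ξ 0, sub_zero]
  have k1 : aj r h ξ (0 - 1) = aj r h ξ (r + 1) := by
    rw [← aj_symm r h ξ (0 - 1)]; congr 1
  have k2 : aj r h ξ 1 = aj r h ξ (r - 1) := by rw [← aj_symm r h ξ 1]
  constructor
  · unfold vj
    rw [k0, norm_pow, norm_div, norm_aj_r hr H, div_self ns, one_pow]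
  · rw [one_sub_vj B.hh, norm_neg, norm_div, norm_mul, zero_add, k1, norm_aj_hinge hr H, ← k2,
      norm_pow]
    unfold vj
    rw [norm_pow, norm_div]
    ring

/-- log of the modulus of the shape -/
noncomputable def LL (r : ℕ) (h ξ : ℝ) (i : ℤ) : ℝ := Real.log ‖UU r h ξ i‖

lemma LL_per (r : ℕ) (h ξ : ℝ) (i : ℤ) : LL r h ξ (i + r) = LL r h ξ i := by
  unfold LL; rw [UU_per]

lemma LL_hinge (hr : 4 ≤ r) (H : Saddle ((r : ℝ) / 2) (1 / r) h ξ) {i : ℤ}
    (hi : (r : ℤ) ∣ i) : LL r h ξ i = 0 := by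
  unfold LL; rw [(norm_UU_hinge hr H hi).1, Real.log_one]

lemma LL_eq (hr : 4 ≤ r) (H : Saddle ((r : ℝ) / 2) (1 / r) h ξ) (i : ℤ) :
    Real.log ‖1 - UU r h ξ i‖ = (LL r h ξ (i - 1) + LL r h ξ (i + 1)) / 2 := by
  have B := basic2 hr H
  by_cases hi : (r : ℤ) ∣ i
  · obtain ⟨-, e1, e2⟩ := UU_hinge hr h ξ hi
    rw [(norm_UU_hinge hr H hi).2]
    unfold LL
    rw [e1, e2]; ring
  · have e := congrArg (fun z => Real.log ‖z‖) (UU_fan (ξ := ξ) hr B.hh hi)
    simp only [norm_pow, norm_mul] at e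
    have n : ∀ k, ‖UU r h ξ k‖ ≠ 0 := fun k => by
      apply norm_ne_zero_iff.2
      intro h0
      have := UU_im_pos hr H k
      rw [h0] at this
      simp at this
    rw [Real.log_pow, Real.log_mul (n _) (n _)] at e
    unfold LL
    push_cast at e
    linarith only [e]

lemma bx_wst (hr : 4 ≤ r) (H : Saddle ((r : ℝ) / 2) (1 / r) h ξ) (i : ℤ) :
    bx r (wst r h ξ) i = arg (1 - UU r h ξ i)⁻¹ := by
  have B := basic2 hr H
  have hz := UU_im_pos hr H i
  obtain ⟨a0, b0, c0, hsum, -, -⟩ := tri hz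
  unfold bx
  by_cases hi : (r : ℤ) ∣ i
  · rw [if_pos hi]
    obtain ⟨-, e1, e2⟩ := UU_hinge hr h ξ hi
    have hn := (norm_UU_hinge hr H hi).1
    have h3 : wst r h ξ (i - 1) = wst r h ξ (i + 1) := by
      unfold wst; rw [e1, e2]
    rw [h3]
    have h4 : (UU r h ξ i)⁻¹ = (starRingEnd ℂ) (UU r h ξ i) := by
      rw [Complex.inv_def, Complex.normSq_eq_norm_sq, hn]
      simp
    have h5 : arg (1 - (UU r h ξ i)⁻¹) = arg (1 - UU r h ξ i)⁻¹ := by
      have : 1 - (UU r h ξ i)⁻¹ = (starRingEnd ℂ) (1 - UU r h ξ i) := by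
        rw [h4]; simp
      rw [this, Complex.arg_conj, Complex.arg_inv]
    have h6 : wst r h ξ i = π - arg (UU r h ξ i) := rfl
    rw [h5] at hsum
    rw [h6]
    linarith only [hsum]
  · rw [if_neg hi]
    have hf := UU_fan (ξ := ξ) hr B.hh hi
    have z0 : UU r h ξ i ≠ 1 := by intro h0; rw [h0] at hz; simp at hz
    have z1 : 1 - UU r h ξ i ≠ 0 := sub_ne_zero.2 (Ne.symm z0)
    have n : ∀ k, UU r h ξ k ≠ 0 := fun k => by
      intro h0
      have := UU_im_pos hr H k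
      rw [h0] at this
      simp at this
    have e1 : ((2 * arg (1 - UU r h ξ i)⁻¹ + arg (UU r h ξ (i - 1)) + arg (UU r h ξ (i + 1)) : ℝ) :
        Real.Angle) = ((0 : ℝ) : Real.Angle) := by
      have e2 : (arg ((1 - UU r h ξ i) ^ 2) : Real.Angle) =
          (arg (UU r h ξ (i - 1)) : Real.Angle) + (arg (UU r h ξ (i + 1)) : Real.Angle) := by
        rw [hf, Complex.arg_mul_coe_angle (n _) (n _)]
      have e3 : (arg (1 - UU r h ξ i)⁻¹ : Real.Angle) = - (arg (1 - UU r h ξ i) : Real.Angle) :=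
        Complex.arg_inv_coe_angle _
      rw [sq, Complex.arg_mul_coe_angle z1 z1] at e2
      rw [Real.Angle.coe_add, Real.Angle.coe_add, two_mul, Real.Angle.coe_add, e3, add_assoc, ← e2]
      simp
    rw [Real.Angle.angle_eq_iff_two_pi_dvd_sub] at e1
    obtain ⟨k, hk⟩ := e1
    obtain ⟨p0, p1⟩ := arg_mem (UU_im_pos hr H (i - 1))
    obtain ⟨q0, q1⟩ := arg_mem (UU_im_pos hr H (i + 1))
    have hpi := Real.pi_pos
    have k1 : (0 : ℝ) < k := by
      by_contra hc; push Not at hc; nlinarith only [hsum, c0, hc, a0, q0, p0, hk, b0]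
    have k2 : (k : ℝ) < 2 := by
      by_contra hc; push Not at hc; nlinarith only [k1, b0, hc, q1, p1, hk, hsum, c0, a0]
    have k3 : (0 : ℤ) < k := by exact_mod_cast k1
    have k4 : k < 2 := by exact_mod_cast k2
    have k5 : k = 1 := by omega
    rw [k5] at hk
    unfold wst
    push_cast at hk
    linarith only [hk]

lemma by_wst (hr : 4 ≤ r) (H : Saddle ((r : ℝ) / 2) (1 / r) h ξ) (i : ℤ) :
    by' r (wst r h ξ) i = arg (1 - (UU r h ξ i)⁻¹) := by
  have hz := UU_im_pos hr H i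
  obtain ⟨a0, b0, c0, hsum, -, -⟩ := tri hz
  unfold by'
  rw [bx_wst hr H]
  unfold wst
  linarith only [hsum]

lemma wst_adm (hr : 4 ≤ r) (H : Saddle ((r : ℝ) / 2) (1 / r) h ξ) : BAdm r (wst r h ξ) := by
  refine ⟨fun i => ?_, fun i => ?_⟩
  · unfold wst
    rw [two_mul, ← add_assoc, UU_per, UU_per]
  · obtain ⟨a0, b0, c0, -, -, -⟩ := tri (UU_im_pos hr H i)
    rw [bx_wst hr H, by_wst hr H]
    refine ⟨b0.le, c0.le, ?_⟩
    unfold wst
    linarith

lemma term_wst (hr : 4 ≤ r) (H : Saddle ((r : ℝ) / 2) (1 / r) h ξ) (i : ℤ) :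
    Lob (bx r (wst r h ξ) i) + Lob (by' r (wst r h ξ) i) + Lob (π - wst r h ξ i) =
      BW (UU r h ξ i) := by
  have hz := UU_im_pos hr H i
  have h0 : UU r h ξ i ≠ 0 := by intro h; rw [h] at hz; simp at hz
  have h1 : UU r h ξ i ≠ 1 := by intro h; rw [h] at hz; simp at hz
  rw [bx_wst hr H, by_wst hr H, BW_eq_angles _ h0 h1]
  unfold wst
  rw [sub_sub_cancel]
  ring

/-- The sum over the layers -/
lemma sum_UU (r : ℕ) (h ξ : ℝ) :
    ∑ i ∈ Finset.range (2 * r), BW (UU r h ξ i) = 2 * ∑ j ∈ Finset.range r, BW (vj r h ξ j) := by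
  rw [two_mul r, Finset.sum_range_add, two_mul]
  congr 1
  · apply Finset.sum_congr rfl
    intro i hi
    rw [Finset.mem_range] at hi
    unfold UU
    rw [Int.emod_eq_of_lt (by omega) (by omega)]
  · apply Finset.sum_congr rfl
    intro i hi
    rw [Finset.mem_range] at hi
    have : (((r + i : ℕ)) : ℤ) = (i : ℤ) + r := by push_cast; ring
    rw [this, UU_per]
    unfold UU
    rw [Int.emod_eq_of_lt (by omega) (by omega)]

lemma bvol_wst (hr : 4 ≤ r) (H : Saddle ((r : ℝ) / 2) (1 / r) h ξ) :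
    2 * bvol r (wst r h ξ) = 8 * π * KK ((r : ℝ) / 2) (1 / r) h ξ (x0 h ξ) := by
  have hv := value_eq2 hr H
  unfold bvol
  have : ∀ i ∈ Finset.range (2 * r), (Lob (bx r (wst r h ξ) i) + Lob (by' r (wst r h ξ) i) +
      Lob (π - wst r h ξ i)) = BW (UU r h ξ i) := fun i _ => term_wst hr H i
  rw [Finset.sum_congr rfl this, sum_UU r h ξ]
  linarith only [hv]

/-- The tangent inequality in each layer. -/
lemma term_le (hr : 4 ≤ r) (H : Saddle ((r : ℝ) / 2) (1 / r) h ξ) {w : ℤ → ℝ} (hw : BAdm r w)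
    (i : ℤ) :
    Lob (bx r w i) + Lob (by' r w i) + Lob (π - w i) ≤ BW (UU r h ξ i) +
      ((LL r h ξ (i - 1) * (w i - wst r h ξ i) -
        LL r h ξ i * (w (i - 1) - wst r h ξ (i - 1))) / 2 -
      (LL r h ξ i * (w (i + 1) - wst r h ξ (i + 1)) -
        LL r h ξ (i + 1) * (w i - wst r h ξ i)) / 2) := by
  have hz := UU_im_pos hr H i
  obtain ⟨a0, b0, c0, hsum, l1, l2⟩ := tri hz
  obtain ⟨p1, p2, p3⟩ := hw.nonneg i
  have hs : bx r w i + by' r w i + (π - w i) = π := by unfold by'; ring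
  have T := Pool.Agent.Helper11.Kash.HH_tangent p1 p2 p3 hs b0 c0 a0 (by linarith only [hsum])
  have hH : ∀ x, Pool.Agent.Helper9.Kashaev.HH x = - Lob x := fun x => by
    unfold Pool.Agent.Helper9.Kashaev.HH Lob; ring
  simp only [hH] at T
  have t := term_wst hr H i
  have ebx := bx_wst hr H i
  have eby := by_wst hr H i
  have ebz : π - wst r h ξ i = arg (UU r h ξ i) := by unfold wst; ring
  rw [ebx, eby, ebz] at t
  rw [LL_eq hr H] at l2
  have l1' : Real.log (2 * Real.sin (arg (1 - UU r h ξ i)⁻¹)) =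
      Real.log (2 * Real.sin (arg (1 - (UU r h ξ i)⁻¹))) + LL r h ξ i := by
    unfold LL; linarith only [l1]
  have l2' : Real.log (2 * Real.sin (arg (UU r h ξ i))) =
      Real.log (2 * Real.sin (arg (1 - (UU r h ξ i)⁻¹))) +
        (LL r h ξ (i - 1) + LL r h ξ (i + 1)) / 2 := by
    linarith only [l2]
  rw [l1', l2'] at T
  -- the difference of the first angles
  have hb : LL r h ξ i * (bx r w i - arg (1 - UU r h ξ i)⁻¹) =
      LL r h ξ i * ((w (i - 1) - wst r h ξ (i - 1)) + (w (i + 1) - wst r h ξ (i + 1))) / 2 := by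
    rw [← ebx]
    by_cases hi : (r : ℤ) ∣ i
    · rw [LL_hinge hr H hi]; ring
    · unfold bx
      rw [if_neg hi, if_neg hi]; ring
  have e1 : arg (1 - (UU r h ξ i)⁻¹) = π - arg (UU r h ξ i) - arg (1 - UU r h ξ i)⁻¹ := by
    linarith only [hsum]
  have e2 : by' r w i = w i - bx r w i := rfl
  have e3 : wst r h ξ i = π - arg (UU r h ξ i) := rfl
  generalize hG : Real.log (2 * Real.sin (arg (1 - (UU r h ξ i)⁻¹))) = G at T
  rw [← t]
  rw [e3]
  have e4 : (G + LL r h ξ i) * (bx r w i - arg (1 - UU r h ξ i)⁻¹) +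
      G * (by' r w i - arg (1 - (UU r h ξ i)⁻¹)) +
      (G + (LL r h ξ (i - 1) + LL r h ξ (i + 1)) / 2) * (π - w i - arg (UU r h ξ i)) =
      LL r h ξ i * (bx r w i - arg (1 - UU r h ξ i)⁻¹) -
      (LL r h ξ (i - 1) + LL r h ξ (i + 1)) / 2 * (w i - (π - arg (UU r h ξ i))) := by
    rw [e1, e2]; ring
  have T2 : -Lob (arg (1 - UU r h ξ i)⁻¹) + -Lob (arg (1 - (UU r h ξ i)⁻¹)) +
      -Lob (arg (UU r h ξ i)) +
      ((G + LL r h ξ i) * (bx r w i - arg (1 - UU r h ξ i)⁻¹) +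
      G * (by' r w i - arg (1 - (UU r h ξ i)⁻¹)) +
      (G + (LL r h ξ (i - 1) + LL r h ξ (i + 1)) / 2) * (π - w i - arg (UU r h ξ i))) ≤
      -Lob (bx r w i) + -Lob (by' r w i) + -Lob (π - w i) := by
    linarith only [T]
  rw [e4, hb] at T2
  linarith only [e4, T, hb]

lemma bvol_le (hr : 4 ≤ r) (H : Saddle ((r : ℝ) / 2) (1 / r) h ξ) {w : ℤ → ℝ} (hw : BAdm r w) :
    bvol r w ≤ bvol r (wst r h ξ) := by
  have h1 : bvol r (wst r h ξ) = ∑ i ∈ Finset.range (2 * r), BW (UU r h ξ i) :=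
    Finset.sum_congr rfl fun i _ => term_wst hr H i
  rw [h1]
  set P : ℕ → ℝ := fun i => (LL r h ξ ((i : ℤ) - 1) * (w i - wst r h ξ i) -
        LL r h ξ i * (w ((i : ℤ) - 1) - wst r h ξ ((i : ℤ) - 1))) / 2 with hP
  have h2 : ∀ i ∈ Finset.range (2 * r), (Lob (bx r w i) + Lob (by' r w i) + Lob (π - w i)) ≤
      BW (UU r h ξ i) + (P i - P (i + 1)) := by
    intro i _
    have := term_le hr H hw i
    rw [hP]
    simp only
    push_cast
    rw [add_sub_cancel_right]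
    exact this
  have h3 : bvol r w ≤ ∑ i ∈ Finset.range (2 * r), (BW (UU r h ξ i) + (P i - P (i + 1))) :=
    Finset.sum_le_sum h2
  rw [Finset.sum_add_distrib, Finset.sum_range_sub'] at h3
  have h4 : P (2 * r) = P 0 := by
    have a0 : LL r h ξ ((2 * r : ℕ) - 1) = LL r h ξ ((0 : ℕ) - 1) := by
      rw [show (((2 * r : ℕ) : ℤ) - 1) = (((0 : ℕ) : ℤ) - 1) + r + r by push_cast; ring, LL_per,
        LL_per]
    have a1 : LL r h ξ ((2 * r : ℕ)) = LL r h ξ ((0 : ℕ)) := by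
      rw [show (((2 * r : ℕ) : ℤ)) = ((0 : ℕ) : ℤ) + r + r by push_cast; ring, LL_per, LL_per]
    have hst := (wst_adm hr H).per
    have hwp := hw.per
    have b0 : ∀ k : ℤ, w (((2 * r : ℕ) : ℤ) + k) = w (((0 : ℕ) : ℤ) + k) := fun k => by
      rw [show (((2 * r : ℕ) : ℤ)) + k = (((0 : ℕ) : ℤ) + k) + 2 * r by push_cast; ring, hwp]
    have c0 : ∀ k : ℤ, wst r h ξ (((2 * r : ℕ) : ℤ) + k) = wst r h ξ (((0 : ℕ) : ℤ) + k) :=
      fun k => by
      rw [show (((2 * r : ℕ) : ℤ)) + k = (((0 : ℕ) : ℤ) + k) + 2 * r by push_cast; ring, hst]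
    have b1 := b0 0
    have b2 := b0 (-1)
    have c1 := c0 0
    have c2 := c0 (-1)
    rw [add_zero, add_zero] at b1 c1
    rw [← sub_eq_add_neg, ← sub_eq_add_neg] at b2 c2
    rw [hP]
    simp only
    rw [a0, a1, b1, b2, c1, c2]
  rw [h4, sub_self, add_zero] at h3
  exact h3

end Pool.Agent.Helper96.TB

namespace Pool.Agent.Helper9.TB

open Real

/-- The maximum of the volume functional of the bundles equals the value at the saddle point. -/
theorem gfb_isGreatest (r : ℕ) (hr : 4 ≤ r) (h xi : ℝ) (S : Saddle (r / 2) (1 / r) h xi) :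
    IsGreatest {x | ∃ w, BAdm r w ∧ 2 * bvol r w = x}
      (8 * π * KK (r / 2) (1 / r) h xi (x0 h xi)) := by
  constructor
  · exact ⟨_, Helper96.TB.wst_adm hr S, Helper96.TB.bvol_wst hr S⟩
  · rintro x ⟨w, hw, rfl⟩
    rw [← Helper96.TB.bvol_wst hr S]
    have := Helper96.TB.bvol_le hr S hw
    linarith

end Pool.Agent.Helper9.TB
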