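import Mathlib
import Pool.Agent.Helper5.TB.BW
import Pool.Agent.Helper11.Kash.Loba
import Pool.Agent.Helper9.TB.GFDefs2

/-!
# The maximum of the volume functional of the bundles for `r = 1, 2`
-/

set_option autoImplicit false

namespace Pool.Agent.Helper9.TB

open Real
open Pool.Agent.Helper5.TB (Lob_neg Lob_pi Lob_pi_sub)

lemma HH_eq_neg_Lob (x : ℝ) : Pool.Agent.Helper9.Kashaev.HH x = - Lob x := by
  unfold Pool.Agent.Helper9.Kashaev.HH Lob; ring

/-- tangent inequality for the Lobachevsky function -/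
lemma Lob_tangent {a b c a0 b0 c0 : ℝ} (ha : 0 ≤ a) (hb : 0 ≤ b) (hc : 0 ≤ c)
    (h : a + b + c = π) (ha0 : 0 < a0) (hb0 : 0 < b0) (hc0 : 0 < c0)
    (h0 : a0 + b0 + c0 = π) :
    Lob a + Lob b + Lob c ≤ Lob a0 + Lob b0 + Lob c0 - Real.log (2 * Real.sin a0) * (a - a0) -
      Real.log (2 * Real.sin b0) * (b - b0) - Real.log (2 * Real.sin c0) * (c - c0) := by
  have := Pool.Agent.Helper11.Kash.HH_tangent ha hb hc h ha0 hb0 hc0 h0
  simp only [HH_eq_neg_Lob] at this
  linarith

/-- The case `r = 1`. -/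
theorem gfb_one : IsGreatest {x | ∃ w, BAdm 1 w ∧ 2 * bvol 1 w = x} (12 * Lob (π / 3)) := by
  have hpi := Real.pi_pos
  constructor
  · refine ⟨fun _ => 2 * π / 3, ⟨fun _ => rfl, fun i => ?_⟩, ?_⟩
    · simp only [bx, by']
      have : ((1 : ℕ) : ℤ) ∣ i := by simp
      rw [if_pos this]
      refine ⟨by ring_nf; positivity, by ring_nf; positivity, by ring_nf; positivity⟩
    · unfold bvol
      have : ∀ i ∈ Finset.range (2 * 1), (Lob (bx 1 (fun _ => 2 * π / 3) i) +
          Lob (by' 1 (fun _ => 2 * π / 3) i) + Lob (π - 2 * π / 3)) = 3 * Lob (π / 3) := by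
        intro i _
        simp only [bx, by']
        have : ((1 : ℕ) : ℤ) ∣ (i : ℤ) := by simp
        rw [if_pos this]
        have e1 : (2 * π / 3 + 2 * π / 3 - 2 * π / 3) / 2 = π / 3 := by ring
        have e2 : 2 * π / 3 - π / 3 = π / 3 := by ring
        have e3 : π - 2 * π / 3 = π / 3 := by ring
        rw [e1, e2, e3]; ring
      rw [Finset.sum_congr rfl this]
      simp
      ring
  · rintro x ⟨w, hw, rfl⟩
    unfold bvol
    have hle : ∀ i ∈ Finset.range (2 * 1), (Lob (bx 1 w i) + Lob (by' 1 w i) + Lob (π - w i)) ≤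
        3 * Lob (π / 3) := by
      intro i _
      obtain ⟨p1, p2, p3⟩ := hw.nonneg i
      have := Lob_tangent p1 p2 p3 (by unfold by'; ring) (a0 := π / 3) (b0 := π / 3)
        (c0 := π / 3) (by positivity) (by positivity) (by positivity) (by ring)
      have e : bx 1 w i + by' 1 w i + (π - w i) = π := by unfold by'; ring
      have e2 : Real.log (2 * Real.sin (π / 3)) * (bx 1 w i - π / 3) +
          Real.log (2 * Real.sin (π / 3)) * (by' 1 w i - π / 3) +
          Real.log (2 * Real.sin (π / 3)) * (π - w i - π / 3) = 0 := by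
        rw [← mul_add, ← mul_add]
        have : bx 1 w i - π / 3 + (by' 1 w i - π / 3) + (π - w i - π / 3) = 0 := by linarith
        rw [this, mul_zero]
      linarith
    have := Finset.sum_le_sum hle
    simp only [Finset.sum_const, Finset.card_range] at this
    rw [nsmul_eq_mul] at this
    push_cast at this
    linarith

/-- The critical angles for `r = 2`. -/
noncomputable def w2 (i : ℤ) : ℝ := if (2 : ℤ) ∣ i then π / 2 else 3 * π / 4

lemma bx_w2 (i : ℤ) : bx 2 w2 i = if (2 : ℤ) ∣ i then π / 4 else π / 2 := by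
  unfold bx w2
  push_cast
  by_cases hi : (2 : ℤ) ∣ i
  · have h1 : ¬ (2 : ℤ) ∣ i - 1 := by omega
    have h2 : ¬ (2 : ℤ) ∣ i + 1 := by omega
    rw [if_pos hi, if_pos hi, if_neg h1, if_neg h2, if_pos hi]
    ring
  · have h1 : (2 : ℤ) ∣ i - 1 := by omega
    have h2 : (2 : ℤ) ∣ i + 1 := by omega
    rw [if_neg hi, if_pos h1, if_pos h2, if_neg hi]
    ring

lemma by_w2 (i : ℤ) : by' 2 w2 i = π / 4 := by
  unfold by'
  rw [bx_w2]
  unfold w2
  by_cases hi : (2 : ℤ) ∣ i
  · rw [if_pos hi, if_pos hi]; ring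
  · rw [if_neg hi, if_neg hi]; ring

lemma Lob_pi_half : Lob (π / 2) = 0 := by
  have := Lob_pi_sub (π / 2)
  rw [show π - π / 2 = π / 2 by ring] at this
  linarith

lemma term_w2 (i : ℤ) : Lob (bx 2 w2 i) + Lob (by' 2 w2 i) + Lob (π - w2 i) =
    2 * Lob (π / 4) := by
  rw [bx_w2, by_w2]
  unfold w2
  by_cases hi : (2 : ℤ) ∣ i
  · rw [if_pos hi, if_pos hi, show π - π / 2 = π / 2 by ring, Lob_pi_half]; ring
  · rw [if_neg hi, if_neg hi, show π - 3 * π / 4 = π / 4 by ring, Lob_pi_half]; ring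

/-- The case `r = 2`. -/
theorem gfb_two : IsGreatest {x | ∃ w, BAdm 2 w ∧ 2 * bvol 2 w = x} (16 * Lob (π / 4)) := by
  have hpi := Real.pi_pos
  constructor
  · refine ⟨w2, ⟨fun i => ?_, fun i => ?_⟩, ?_⟩
    · unfold w2
      by_cases hi : (2 : ℤ) ∣ i
      · have : (2 : ℤ) ∣ i + 2 * (2 : ℕ) := by push_cast; omega
        rw [if_pos hi, if_pos this]
      · have : ¬ (2 : ℤ) ∣ i + 2 * (2 : ℕ) := by push_cast; omega
        rw [if_neg hi, if_neg this]
    · rw [bx_w2, by_w2]
      unfold w2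
      by_cases hi : (2 : ℤ) ∣ i
      · rw [if_pos hi, if_pos hi]
        refine ⟨by positivity, by positivity, by linarith⟩
      · rw [if_neg hi, if_neg hi]
        refine ⟨by positivity, by positivity, by linarith⟩
    · unfold bvol
      have e : ∀ i ∈ Finset.range (2 * 2), (Lob (bx 2 w2 (i : ℤ)) + Lob (by' 2 w2 (i : ℤ)) +
          Lob (π - w2 (i : ℤ))) = 2 * Lob (π / 4) := fun i _ => term_w2 i
      rw [Finset.sum_congr rfl e]
      simp
      ring
  · rintro x ⟨w, hw, rfl⟩
    have l2 : Real.log (2 * Real.sin (π / 2)) = Real.log 2 := by rw [Real.sin_pi_div_two, mul_one]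
    have l4 : Real.log (2 * Real.sin (π / 4)) = Real.log 2 / 2 := by
      rw [Real.sin_pi_div_four, show 2 * (√2 / 2) = √2 by ring, Real.log_sqrt (by norm_num)]
    have hinge : ∀ i : ℤ, (2 : ℤ) ∣ i → Lob (bx 2 w i) + Lob (by' 2 w i) + Lob (π - w i) ≤
        2 * Lob (π / 4) + Real.log 2 / 2 * (w i - π / 2) := by
      intro i hi
      obtain ⟨p1, p2, p3⟩ := hw.nonneg i
      have e : bx 2 w i + by' 2 w i = w i := by unfold by'; ring
      have := Lob_tangent p1 p2 p3 (by linarith) (a0 := π / 4) (b0 := π / 4)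
        (c0 := π / 2) (by positivity) (by positivity) (by positivity) (by ring)
      rw [l2, l4, Lob_pi_half] at this
      have e2 : Real.log 2 / 2 * (bx 2 w i - π / 4) + Real.log 2 / 2 * (by' 2 w i - π / 4) =
          Real.log 2 / 2 * (w i - π / 2) := by
        rw [← mul_add]; congr 1; linarith
      have e3 : Real.log 2 * (π - w i - π / 2) = -2 * (Real.log 2 / 2 * (w i - π / 2)) := by ring
      linarith
    have fan : ∀ i : ℤ, ¬ (2 : ℤ) ∣ i → Lob (bx 2 w i) + Lob (by' 2 w i) + Lob (π - w i) ≤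
        2 * Lob (π / 4) - Real.log 2 / 2 * ((w (i - 1) + w (i + 1)) / 2 - π / 2) := by
      intro i hi
      obtain ⟨p1, p2, p3⟩ := hw.nonneg i
      have e : bx 2 w i + by' 2 w i = w i := by unfold by'; ring
      have := Lob_tangent p1 p2 p3 (by linarith) (a0 := π / 2) (b0 := π / 4)
        (c0 := π / 4) (by positivity) (by positivity) (by positivity) (by ring)
      rw [l2, l4, Lob_pi_half] at this
      have hb : bx 2 w i = (w (i - 1) + w (i + 1)) / 2 := by
        unfold bx
        push_cast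
        rw [if_neg hi]
      have e2 : Real.log 2 / 2 * (by' 2 w i - π / 4) + Real.log 2 / 2 * (π - w i - π / 4) =
          -(Real.log 2 / 2 * (bx 2 w i - π / 2)) := by
        rw [← mul_add, ← mul_neg]; congr 1; linarith
      have e3 : Real.log 2 * (bx 2 w i - π / 2) = 2 * (Real.log 2 / 2 * (bx 2 w i - π / 2)) := by
        ring
      rw [← hb]
      linarith
    have h0 := hinge 0 (by norm_num)
    have h1 := fan 1 (by norm_num)
    have h2 := hinge 2 (by norm_num)
    have h3 := fan 3 (by norm_num)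
    have hp := hw.per 0
    norm_num at h0 h1 h2 h3 hp
    unfold bvol
    rw [show 2 * 2 = 3 + 1 by rfl, Finset.sum_range_succ, Finset.sum_range_succ,
      Finset.sum_range_succ, Finset.sum_range_succ, Finset.sum_range_zero]
    push_cast
    rw [hp] at h3
    linarith

end Pool.Agent.Helper9.TB
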