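import Pool.Agent.Helper5.TB.SaddleEq

/-!
# Consequences of the saddle equations for the parameter `r / 2`
-/

set_option autoImplicit false

namespace Pool.Agent.Helper96.TB

open Real Complex
open Pool.Agent.Helper9.TB (Lob ee ll win KK kap x0 WW Saddle)
open Pool.Agent.Helper5.TB

variable {r : ℕ} {h ξ : ℝ}

lemma basic2 (hr : 4 ≤ r) (H : Saddle ((r : ℝ) / 2) (1 / r) h ξ) : Basic h ξ (x0 h ξ) := by
  have hpi := Real.pi_pos
  have hr4 : (4 : ℝ) ≤ r := by exact_mod_cast hr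
  have hh := H.hpos
  have xpos := H.xpos
  have xlt : ξ < 1 / 4 := by
    have h1 := H.xlt
    have h2 : (1 : ℝ) / r ≤ 1 / 4 := one_div_le_one_div_of_le (by norm_num) hr4
    linarith only [h2, h1]
  have hc : 0 < Real.cos (2 * π * ξ) := by
    apply Real.cos_pos_of_mem_Ioo
    constructor <;> nlinarith only [xpos, hpi, xlt]
  have hsin : 0 < Real.sin (2 * π * ξ) := by
    apply Real.sin_pos_of_pos_of_lt_pi <;> nlinarith only [xlt, xpos, hpi]
  have hC1 : 1 ≤ Real.cosh (2 * π * h) := Real.one_le_cosh _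
  have hC : Real.cosh (2 * π * h) < 3 / 2 := by
    have h1 := H.small
    have h2 : Real.cosh (2 * π * h) ≤ Real.cosh (2 * π * (r / 2) * h) := by
      rw [Real.cosh_le_cosh, abs_of_pos (by positivity), abs_of_pos (by positivity)]
      have : 0 < 2 * π * h := by positivity
      nlinarith only [this, hr4, hh, hpi]
    nlinarith only [hC1, xlt, h1, xpos, h2]
  have hd : 0 < 1 + Real.cos (2 * π * ξ) * Real.cosh (2 * π * h) := by
    have := mul_pos hc (by linarith : 0 < Real.cosh (2 * π * h))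
    linarith
  have hs : 0 < Real.cosh (2 * π * h) + Real.cos (2 * π * ξ) := by linarith
  have hcos1 := Real.cos_le_one (2 * π * ξ)
  have k2 := kap_lt hd hs
  have k1 := kap_gt hd (by linarith) (by linarith)
  exact ⟨hh, xpos, xlt, hc, hsin, hC, hd, hs, k1, k2, x0_pos k2, x0_lt k1, x0_cos k1 k2⟩

lemma ee_saddle2 (hr : 4 ≤ r) (H : Saddle ((r : ℝ) / 2) (1 / r) h ξ) :
    ee h (ξ - x0 h ξ) - ee h (ξ + x0 h ξ) = π * r * h := by
  have B := basic2 hr H
  have hpi := Real.pi_pos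
  have hr4 : (4 : ℝ) ≤ r := by exact_mod_cast hr
  obtain ⟨h1, -⟩ := ee_diff B.hh B.hd B.hs B.ht B.k2
  rw [← H.s1, show 2 * π * ((r : ℝ) / 2) * h = π * r * h by ring] at h1
  have hpos : 0 ≤ ee h (ξ - x0 h ξ) - ee h (ξ + x0 h ξ) := by
    unfold ee
    have hA := cosh_add_cos_pos B.hh (ξ - x0 h ξ)
    have hB := cosh_add_cos_pos B.hh (ξ + x0 h ξ)
    have hst : 0 < Real.sin (2 * π * x0 h ξ) := by
      have h1 := B.t0
      have h2 := B.t1
      apply Real.sin_pos_of_pos_of_lt_pi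
      · positivity
      · nlinarith only [h2, hpi]
    have hAB : Real.cos (2 * π * (ξ + x0 h ξ)) ≤ Real.cos (2 * π * (ξ - x0 h ξ)) := by
      rw [mul_sub (2 * π) ξ, mul_add (2 * π) ξ, Real.cos_sub, Real.cos_add]
      have := mul_pos B.hsin hst
      linarith
    have := Real.log_le_log (by positivity :
      0 < 2 * (Real.cosh (2 * π * h) + Real.cos (2 * π * (ξ + x0 h ξ))))
      (by linarith : 2 * (Real.cosh (2 * π * h) + Real.cos (2 * π * (ξ + x0 h ξ))) ≤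
        2 * (Real.cosh (2 * π * h) + Real.cos (2 * π * (ξ - x0 h ξ))))
    linarith
  have hh := B.hh
  have hpos2 : 0 ≤ π * r * h := by positivity
  have h2 : |ee h (ξ - x0 h ξ) - ee h (ξ + x0 h ξ)| = |π * r * h| := by
    apply le_antisymm
    · rw [← Real.cosh_le_cosh, h1]
    · rw [← Real.cosh_le_cosh, h1]
  rwa [abs_of_nonneg hpos, abs_of_nonneg hpos2] at h2

/-- the saddle equation for `w` and `T` -/
lemma wT_eq2 (hr : 4 ≤ r) (H : Saddle ((r : ℝ) / 2) (1 / r) h ξ) :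
    -(lj h ξ ^ r * (1 + wj h ξ * TT (x0 h ξ))) = TT (x0 h ξ) + wj h ξ := by
  have B := basic2 hr H
  have e1 := ee_saddle2 hr H
  have hr4 : (4 : ℝ) ≤ r := by exact_mod_cast hr
  have s2 := H.s2
  have hτ := B.t0
  rw [integral_arg B.hh (by linarith only [hτ])] at s2
  set τ := x0 h ξ with hτdef
  have hT := TT_ne τ
  have l1 : 1 + wj h ξ * TT τ = 1 - ZZ h (ξ - τ) := by rw [ZZ_sub]; ring
  have l2 : TT τ + wj h ξ = TT τ * (1 - ZZ h (ξ + τ)) := by
    rw [ZZ_add]; field_simp; ring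
  have p1 := one_sub_ZZ_polar B.hh (ξ - τ)
  have p2 := one_sub_ZZ_polar B.hh (ξ + τ)
  obtain ⟨α, hα⟩ : ∃ α, α = arg (1 - ZZ h (ξ - τ)) := ⟨_, rfl⟩
  obtain ⟨β, hβ⟩ : ∃ β, β = arg (1 - ZZ h (ξ + τ)) := ⟨_, rfl⟩
  rw [← hα] at s2 p1
  rw [← hβ] at s2 p2
  have hrr : (r : ℝ) * (1 / r) = 1 := by
    have : (r : ℝ) ≠ 0 := by linarith
    field_simp
  have a1 : ee h (ξ - τ) = ee h (ξ + τ) + π * r * h := by linarith only [e1]
  have a2 : α = β + 2 * π * τ - π + π * r * ξ := by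
    have e3 : 2 * π * ((r : ℝ) / 2) * (1 / r - ξ) = π * (r * (1 / r)) - π * r * ξ := by ring
    rw [e3, hrr] at s2
    linear_combination s2
  have p3 : lj h ξ ^ r = Complex.exp ((r : ℂ) * (-(π * (ξ - h * I)) * I)) := by
    unfold lj
    rw [← Complex.exp_nat_mul]
  have hI : Complex.exp (π * I) = -1 := Complex.exp_pi_mul_I
  have hneg : ∀ z : ℂ, -z = z * Complex.exp (-(π * I)) := fun z => by
    rw [Complex.exp_neg, hI]; norm_num
  rw [hneg, l1, l2, p1, p2, p3]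
  unfold TT
  rw [← Complex.exp_add, ← Complex.exp_add, ← Complex.exp_add, a1, a2]
  have hper : ∀ z : ℂ, Complex.exp z = Complex.exp (z - 2 * π * I) := fun z => by
    rw [Complex.exp_periodic.sub_eq]
  rw [hper (((2 * π * τ : ℝ) : ℂ) * I + _)]
  congr 1
  push_cast
  have := Complex.I_mul_I
  linear_combination (π * r * h : ℂ) * this

/-! ### The sequence `a j = cos ((j - r / 2) π (ξ - i h))` -/

/-- `cos ((j - r / 2) π (ξ - i h))` -/
noncomputable def aj (r : ℕ) (h ξ : ℝ) (j : ℤ) : ℂ :=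
  Complex.cos (((j : ℂ) - r / 2) * (π * (ξ - h * I)))

/-- `sin (π (ξ - i h))` -/
noncomputable def ss (h ξ : ℝ) : ℂ := Complex.sin (π * (ξ - h * I))

lemma ss_eq (h ξ : ℝ) : ss h ξ = sj h ξ 1 := by
  unfold ss sj
  norm_num

lemma ss_ne {h : ℝ} (hh : 0 < h) (ξ : ℝ) : ss h ξ ≠ 0 := by
  rw [ss_eq]; exact sj_ne hh ξ le_rfl

/-- the shape of the `j`-th tetrahedron -/
noncomputable def vj (r : ℕ) (h ξ : ℝ) (j : ℤ) : ℂ := (aj r h ξ j / ss h ξ) ^ 2

lemma aj_rec (r : ℕ) (h ξ : ℝ) (j : ℤ) :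
    aj r h ξ (j + 1) + aj r h ξ (j - 1) = (lj h ξ + (lj h ξ)⁻¹) * aj r h ξ j := by
  rw [lj_add]
  unfold aj
  set θ : ℂ := π * (ξ - h * I)
  have e1 : (((j + 1 : ℤ) : ℂ) - r / 2) * θ = ((j : ℂ) - r / 2) * θ + θ := by push_cast; ring
  have e2 : (((j - 1 : ℤ) : ℂ) - r / 2) * θ = ((j : ℂ) - r / 2) * θ - θ := by push_cast; ring
  rw [e1, e2, Complex.cos_add, Complex.cos_sub]
  ring

lemma aj_mul (r : ℕ) (h ξ : ℝ) (j : ℤ) :
    aj r h ξ (j - 1) * aj r h ξ (j + 1) = aj r h ξ j ^ 2 - ss h ξ ^ 2 := by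
  unfold aj ss
  set θ : ℂ := π * (ξ - h * I)
  have e1 : (((j + 1 : ℤ) : ℂ) - r / 2) * θ = ((j : ℂ) - r / 2) * θ + θ := by push_cast; ring
  have e2 : (((j - 1 : ℤ) : ℂ) - r / 2) * θ = ((j : ℂ) - r / 2) * θ - θ := by push_cast; ring
  rw [e1, e2, Complex.cos_add, Complex.cos_sub]
  have h1 := Complex.sin_sq_add_cos_sq θ
  have h2 := Complex.sin_sq_add_cos_sq (((j : ℂ) - r / 2) * θ)
  linear_combination Complex.cos (((j : ℂ) - r / 2) * θ) ^ 2 * h1 - Complex.sin θ ^ 2 * h2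

lemma aj_symm (r : ℕ) (h ξ : ℝ) (j : ℤ) : aj r h ξ (r - j) = aj r h ξ j := by
  unfold aj
  rw [← Complex.cos_neg]
  congr 1
  push_cast
  ring

lemma aj_ne {h : ℝ} (hh : 0 < h) (r : ℕ) (ξ : ℝ) (j : ℤ) : aj r h ξ j ≠ 0 := by
  unfold aj
  rw [Complex.cos_ne_zero_iff]
  intro k hk
  have hpi := Real.pi_pos
  have e : ((j : ℂ) - r / 2) * (π * (ξ - h * I)) =
      ((((j : ℝ) - r / 2) * (π * ξ) : ℝ) : ℂ) + ((-(((j : ℝ) - r / 2) * (π * h)) : ℝ) : ℂ) * I := by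
    push_cast; ring
  have e2 : (2 * (k : ℂ) + 1) * π / 2 = (((2 * (k : ℝ) + 1) * π / 2 : ℝ) : ℂ) + ((0 : ℝ) : ℂ) * I := by
    push_cast; ring
  rw [e, e2] at hk
  have him := congrArg Complex.im hk
  have hre := congrArg Complex.re hk
  simp only [Complex.add_im, Complex.ofReal_im, Complex.mul_im, Complex.ofReal_re, Complex.I_im,
    Complex.I_re, Complex.add_re, Complex.mul_re, mul_one, mul_zero, add_zero, zero_add, sub_zero,
    neg_eq_zero] at him hre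
  have h3 : ((j : ℝ) - r / 2) = 0 := by
    rcases mul_eq_zero.1 him with h4 | h4
    · exact h4
    · exfalso
      have : 0 < π * h := by positivity
      linarith only [this, h4]
  rw [h3, zero_mul] at hre
  have h5 : (2 * (k : ℝ) + 1) = 0 := by
    have : (2 * (k : ℝ) + 1) * π = 0 := by linarith only [hre]
    rcases mul_eq_zero.1 this with h6 | h6
    · exact h6
    · exact absurd h6 hpi.ne'
  have h6 : (2 * k + 1 : ℤ) = 0 := by exact_mod_cast h5
  omega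

/-- `T = -a_{r-1} / a_{r+1}` -/
lemma TT_eq2 (hr : 4 ≤ r) (H : Saddle ((r : ℝ) / 2) (1 / r) h ξ) :
    -(aj r h ξ (r - 1) / aj r h ξ (r + 1)) = TT (x0 h ξ) := by
  have B := basic2 hr H
  have e := wT_eq2 hr H
  have hc := aj_ne B.hh r ξ ((r : ℤ) + 1)
  rw [← neg_div, div_eq_iff hc]
  have hl := lj_ne h ξ
  -- write everything in terms of `exp (-i θ / 2)`
  set θ : ℂ := π * (ξ - h * I) with hθ
  set m : ℂ := Complex.exp (-(θ / 2) * I) with hm
  have hm0 : m ≠ 0 := Complex.exp_ne_zero _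
  have hml : lj h ξ = m ^ 2 := by
    rw [hm, ← Complex.exp_nat_mul]; unfold lj; congr 1; push_cast; ring
  have hwl : wj h ξ = m ^ 4 := by unfold wj; rw [hml]; ring
  have key : ∀ k : ℕ, 2 * Complex.cos ((k : ℂ) * (θ / 2)) = m ^ k + (m ^ k)⁻¹ := by
    intro k
    rw [Complex.two_cos, hm, ← Complex.exp_nat_mul, ← Complex.exp_neg]
    rw [add_comm]
    congr 1 <;> congr 1 <;> ring
  obtain ⟨n, rfl⟩ : ∃ n, r = n + 2 := ⟨r - 2, by omega⟩
  have e1 : 2 * aj (n + 2) h ξ (((n + 2 : ℕ) : ℤ) - 1) = m ^ n + (m ^ n)⁻¹ := by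
    rw [← key n]
    unfold aj
    rw [← hθ]
    congr 2
    push_cast; ring
  have e2 : 2 * aj (n + 2) h ξ (((n + 2 : ℕ) : ℤ) + 1) = m ^ (n + 4) + (m ^ (n + 4))⁻¹ := by
    rw [← key (n + 4)]
    unfold aj
    rw [← hθ]
    congr 2
    push_cast; ring
  have hmn := pow_ne_zero n hm0
  rw [hml, hwl] at e
  have e1' : aj (n + 2) h ξ (((n + 2 : ℕ) : ℤ) - 1) = (m ^ n + (m ^ n)⁻¹) / 2 := by
    rw [← e1]; ring
  have e2' : aj (n + 2) h ξ (((n + 2 : ℕ) : ℤ) + 1) = (m ^ (n + 4) + (m ^ (n + 4))⁻¹) / 2 := by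
    rw [← e2]; ring
  rw [e1', e2']
  have e3 : (m ^ 2) ^ (n + 2) = m ^ n * m ^ n * m ^ 4 := by
    rw [← pow_mul, ← pow_add, ← pow_add]; congr 1; ring
  have e4 : m ^ (n + 4) = m ^ n * m ^ 4 := pow_add _ _ _
  rw [e3] at e
  rw [e4]
  field_simp
  linear_combination e

end Pool.Agent.Helper96.TB
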