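import Pool.Agent.Helper96.TB.E2a

/-!
# The value at the saddle point for the bundles, and the positivity of the shapes
-/

set_option autoImplicit false

namespace Pool.Agent.Helper96.TB

open Real Complex
open Pool.Agent.Helper9.TB (Lob ee ll win KK kap x0 WW Saddle)
open Pool.Agent.Helper5.TB

variable {r : ℕ} {h ξ : ℝ}

/-- `|a_{r+1}| = |a_{r-1}|` -/
theorem norm_aj_hinge (hr : 4 ≤ r) (H : Saddle ((r : ℝ) / 2) (1 / r) h ξ) :
    ‖aj r h ξ (r + 1)‖ = ‖aj r h ξ (r - 1)‖ := by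
  have B := basic2 hr H
  have hT := congrArg norm (TT_eq2 hr H)
  rw [TT_norm, norm_neg, norm_div, div_eq_one_iff_eq] at hT
  · exact hT.symm
  · exact norm_ne_zero_iff.2 (aj_ne B.hh r ξ _)

/-- `|a_r| = |s|` -/
theorem norm_aj_r (hr : 4 ≤ r) (H : Saddle ((r : ℝ) / 2) (1 / r) h ξ) :
    ‖aj r h ξ r‖ = ‖ss h ξ‖ := by
  have B := basic2 hr H
  have hT := TT_eq2 hr H
  obtain ⟨-, hpq⟩ := ee_diff B.hh B.hd B.hs B.ht B.k2
  set τ := x0 h ξ with hτ
  have h1 := aj_rec r h ξ r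
  have h2 := aj_mul r h ξ r
  have hc := aj_ne B.hh r ξ ((r : ℤ) + 1)
  set a := aj r h ξ ((r : ℤ) - 1)
  set b := aj r h ξ (r : ℤ)
  set c := aj r h ξ ((r : ℤ) + 1)
  set s := ss h ξ
  set l := lj h ξ with hl
  have hl0 : l ≠ 0 := lj_ne h ξ
  have hw : wj h ξ = l ^ 2 := rfl
  have l1 : 1 - ZZ h (ξ - τ) = 1 + wj h ξ * TT τ := by rw [ZZ_sub]; ring
  have l2 : TT τ * (1 - ZZ h (ξ + τ)) = TT τ + wj h ξ := by
    have := TT_ne τ
    rw [ZZ_add]; field_simp; ring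
  have n1 : ‖1 - ZZ h (ξ - τ)‖ = Real.exp (ee h (ξ - τ)) * Real.exp (-(π * h)) := by
    rw [← Real.exp_add, ← sub_eq_add_neg, ← log_norm_one_sub_ZZ B.hh,
      Real.exp_log (norm_pos_iff.2 (one_sub_ZZ_ne B.hh _))]
  have n2 : ‖1 - ZZ h (ξ + τ)‖ = Real.exp (ee h (ξ + τ)) * Real.exp (-(π * h)) := by
    rw [← Real.exp_add, ← sub_eq_add_neg, ← log_norm_one_sub_ZZ B.hh,
      Real.exp_log (norm_pos_iff.2 (one_sub_ZZ_ne B.hh _))]
  have n3 : ‖wj h ξ‖ = Real.exp (-(π * h)) * Real.exp (-(π * h)) := by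
    rw [wj_eq, norm_neg, ZZ_norm, ← Real.exp_add]; congr 1; ring
  have n4 : ‖(1 - TT τ) ^ 2‖ = 2 * (1 - kap h ξ / 2) := by
    rw [norm_pow, ← Complex.normSq_eq_norm_sq, Complex.normSq_apply]
    unfold TT
    simp only [Complex.sub_re, Complex.one_re, Complex.sub_im, Complex.one_im,
      Complex.exp_ofReal_mul_I_re, Complex.exp_ofReal_mul_I_im, B.ht]
    have := Real.sin_sq_add_cos_sq (2 * π * τ)
    rw [B.ht] at this
    linear_combination this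
  have key : ‖(TT τ + wj h ξ) * (1 + wj h ξ * TT τ)‖ = ‖wj h ξ * (1 - TT τ) ^ 2‖ := by
    rw [← l1, ← l2, norm_mul, norm_mul, norm_mul, TT_norm, one_mul, n1, n2, n3, n4, ← hpq]
    ring
  have k1 : (TT τ + wj h ξ) * (1 + wj h ξ * TT τ) = ((l ^ 2 + 1) * s / c) ^ 2 := by
    rw [← hT, hw]
    have hc' : c = (l + l⁻¹) * b - a := by linear_combination h1
    have h2' : s ^ 2 = b ^ 2 - a * c := by linear_combination h2
    rw [div_pow, mul_pow, h2']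
    field_simp
    rw [hc']
    field_simp
    ring
  have k2 : wj h ξ * (1 - TT τ) ^ 2 = ((l ^ 2 + 1) * b / c) ^ 2 := by
    rw [← hT, hw]
    have hca : 1 - -(a / c) = (l + l⁻¹) * b / c := by
      rw [← h1]; field_simp; ring
    rw [hca]
    field_simp
  rw [k1, k2, norm_pow, norm_pow] at key
  have key2 := (sq_eq_sq₀ (norm_nonneg _) (norm_nonneg _)).1 key
  rw [norm_div, norm_div, norm_mul, norm_mul] at key2
  have nc : ‖c‖ ≠ 0 := norm_ne_zero_iff.2 hc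
  have nl : ‖l ^ 2 + 1‖ ≠ 0 := by
    apply norm_ne_zero_iff.2
    have := lj_add_ne B.hh ξ
    intro h0
    apply this
    rw [← hl]
    field_simp
    rw [mul_zero]
    exact h0
  rw [div_left_inj' nc] at key2
  exact (mul_left_cancel₀ nl key2).symm

lemma vj_ladder {h : ℝ} (hh : 0 < h) (r : ℕ) (ξ : ℝ) (n : ℕ) :
    ∑ j ∈ Finset.range n, BW (vj r h ξ j) =
      EE (lj h ξ) (aj r h ξ (-1)) (aj r h ξ 0) -
        EE (lj h ξ) (aj r h ξ ((n : ℤ) - 1)) (aj r h ξ n) := by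
  induction n with
  | zero => simp
  | succ n ih =>
    rw [Finset.sum_range_succ, ih]
    have f := fan_step (l := lj h ξ) (lj_ne h ξ) (aj_ne hh r ξ n) (ss_ne hh ξ)
      (aj_rec r h ξ n) (aj_mul r h ξ n)
    unfold vj
    rw [f]
    have e1 : (((n + 1 : ℕ) : ℤ) - 1) = n := by push_cast; ring
    rw [e1]
    push_cast
    ring

/-- The value at the saddle point as the sum of dilogarithms of the shapes. -/
theorem value_eq2 (hr : 4 ≤ r) (H : Saddle ((r : ℝ) / 2) (1 / r) h ξ) :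
    4 * π * KK ((r : ℝ) / 2) (1 / r) h ξ (x0 h ξ) =
      2 * ∑ j ∈ Finset.range r, BW (vj r h ξ j) := by
  have B := basic2 hr H
  have hT := TT_eq2 hr H
  have hK := KK_value B.hh B.t0.le B.t1.le H.s2
  have h3 : lj h ξ ^ 2 * aj r h ξ (r - 1) / aj r h ξ (r + 1) = ZZ h (ξ - x0 h ξ) := by
    rw [ZZ_sub, ← hT, mul_div_assoc]; unfold wj; ring
  have h4 : (lj h ξ ^ 2)⁻¹ * aj r h ξ (r - 1) / aj r h ξ (r + 1) = (ZZ h (ξ + x0 h ξ))⁻¹ := by
    rw [ZZ_add, inv_neg, inv_div, ← hT, mul_div_assoc]; unfold wj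
    rw [neg_div, neg_neg, div_eq_mul_inv (aj r h ξ (r - 1) / aj r h ξ (r + 1))]
    ring
  have n3 : 1 - lj h ξ ^ 2 * aj r h ξ (r - 1) / aj r h ξ (r + 1) ≠ 0 := by
    rw [h3]; exact one_sub_ZZ_ne B.hh _
  have n4 : 1 - (lj h ξ ^ 2)⁻¹ * aj r h ξ (r - 1) / aj r h ξ (r + 1) ≠ 0 := by
    rw [h4]
    intro h0
    have h5 : (ZZ h (ξ + x0 h ξ))⁻¹ = 1 := by linear_combination -h0
    have h6 := congrArg norm h5
    rw [norm_inv, norm_one, inv_eq_one] at h6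
    have := ZZ_norm_lt B.hh (ξ + x0 h ξ)
    linarith
  have L := vj_ladder B.hh r ξ r
  have e1 : aj r h ξ (-1) = aj r h ξ (r + 1) := by
    rw [← aj_symm r h ξ (-1)]; congr 1
  have e0 : aj r h ξ 0 = aj r h ξ r := by
    rw [← aj_symm r h ξ 0, sub_zero]
  have e2 : EE (lj h ξ) (aj r h ξ (r + 1)) (aj r h ξ r) =
      -EE (lj h ξ) (aj r h ξ r) (aj r h ξ (r + 1)) := by
    have hb := aj_ne B.hh r ξ (r : ℤ)
    have hc := aj_ne B.hh r ξ ((r : ℤ) + 1)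
    have hl := lj_ne h ξ
    unfold EE
    have k1 : lj h ξ * aj r h ξ (r + 1) / aj r h ξ r =
        ((lj h ξ)⁻¹ * aj r h ξ r / aj r h ξ (r + 1))⁻¹ := by
      rw [inv_div]; field_simp
    have k2 : (lj h ξ)⁻¹ * aj r h ξ (r + 1) / aj r h ξ r =
        (lj h ξ * aj r h ξ r / aj r h ξ (r + 1))⁻¹ := by
      rw [inv_div]; field_simp
    rw [k1, k2, BW_inv, BW_inv]
    ring
  rw [e1, e0, e2] at L
  have g := close_step (l := lj h ξ) (lj_ne h ξ) (aj_ne B.hh r ξ r) (aj_ne B.hh r ξ (r + 1))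
    (lj_add_ne B.hh ξ) (aj_rec r h ξ r) n3 n4
  rw [h3, h4, hT, BW_inv] at g
  rw [L, hK]
  unfold TT at g
  linarith

end Pool.Agent.Helper96.TB
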