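import Pool.Agent.Helper96.TB.E2b

/-!
# Positivity of the shapes
-/

set_option autoImplicit false

namespace Pool.Agent.Helper96.TB

open Real Complex
open Pool.Agent.Helper9.TB (Lob ee ll win KK kap x0 WW Saddle)
open Pool.Agent.Helper5.TB

variable {r : ℕ} {h ξ : ℝ}

lemma cos_re_im (x y : ℝ) :
    (Complex.cos (x - y * I)).re = Real.cos x * Real.cosh y ∧
    (Complex.cos (x - y * I)).im = Real.sin x * Real.sinh y := by
  have e : ((x : ℂ) - y * I) = x + ((-y : ℝ) : ℂ) * I := by push_cast; ring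
  rw [e, Complex.cos_add_mul_I, ← Complex.ofReal_cos, ← Complex.ofReal_cosh, ← Complex.ofReal_sin,
    ← Complex.ofReal_sinh, Real.cosh_neg, Real.sinh_neg, ← Complex.ofReal_mul,
    ← Complex.ofReal_mul]
  constructor
  · rw [Complex.sub_re, Complex.ofReal_re, Complex.re_ofReal_mul, Complex.I_re, mul_zero, sub_zero]
  · rw [Complex.sub_im, Complex.ofReal_im, Complex.im_ofReal_mul, Complex.I_im]
    ring

lemma sin_re_im (x y : ℝ) :
    (Complex.sin (x - y * I)).re = Real.sin x * Real.cosh y ∧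
    (Complex.sin (x - y * I)).im = -(Real.cos x * Real.sinh y) := by
  have e : ((x : ℂ) - y * I) = x + ((-y : ℝ) : ℂ) * I := by push_cast; ring
  rw [e, Complex.sin_add_mul_I, ← Complex.ofReal_cos, ← Complex.ofReal_cosh, ← Complex.ofReal_sin,
    ← Complex.ofReal_sinh, Real.cosh_neg, Real.sinh_neg, ← Complex.ofReal_mul,
    ← Complex.ofReal_mul]
  constructor
  · rw [Complex.add_re, Complex.ofReal_re, Complex.re_ofReal_mul, Complex.I_re, mul_zero, add_zero]
  · rw [Complex.add_im, Complex.ofReal_im, Complex.im_ofReal_mul, Complex.I_im]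
    ring

/-- the case `t = r / 2` -/
lemma re_pos_last (hr : 4 ≤ r) (H : Saddle ((r : ℝ) / 2) (1 / r) h ξ) :
    Real.sin (r / 2 * (π * ξ)) * Real.sinh (r / 2 * (π * h)) *
        (Real.cos (π * ξ) * Real.sinh (π * h)) <
      Real.cos (r / 2 * (π * ξ)) * Real.cosh (r / 2 * (π * h)) *
        (Real.sin (π * ξ) * Real.cosh (π * h)) := by
  have B := basic2 hr H
  have hpi := Real.pi_pos
  have hr4 : (4 : ℝ) ≤ r := by exact_mod_cast hr
  have hn := norm_aj_hinge hr H
  have hxi : r * ξ < 1 := by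
    have := H.xlt
    rw [lt_div_iff₀ (by linarith only [hr4])] at this
    linarith
  have hh := B.hh
  have hx := B.xpos
  have hx4 := B.xlt
  have e1 : Real.sinh (r / 2 * (π * h)) * Real.cosh (r / 2 * (π * h)) *
      (Real.sinh (π * h) * Real.cosh (π * h)) =
      Real.sin (r / 2 * (π * ξ)) * Real.cos (r / 2 * (π * ξ)) *
      (Real.sin (π * ξ) * Real.cos (π * ξ)) := by
    have h2 : ‖aj r h ξ (r + 1)‖ ^ 2 = ‖aj r h ξ (r - 1)‖ ^ 2 := by rw [hn]
    rw [← Complex.normSq_eq_norm_sq, ← Complex.normSq_eq_norm_sq, Complex.normSq_apply,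
      Complex.normSq_apply] at h2
    have a1 : aj r h ξ (r + 1) = Complex.cos
        (((r / 2 * (π * ξ) + π * ξ : ℝ) : ℂ) - ((r / 2 * (π * h) + π * h : ℝ) : ℂ) * I) := by
      unfold aj; congr 1; push_cast; ring
    have a2 : aj r h ξ (r - 1) = Complex.cos
        (((r / 2 * (π * ξ) - π * ξ : ℝ) : ℂ) - ((r / 2 * (π * h) - π * h : ℝ) : ℂ) * I) := by
      unfold aj; congr 1; push_cast; ring
    rw [a1, a2] at h2
    rw [(cos_re_im _ _).1, (cos_re_im _ _).2, (cos_re_im _ _).1, (cos_re_im _ _).2] at h2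
    rw [Real.cos_add, Real.cos_sub, Real.sin_add, Real.sin_sub, Real.cosh_add, Real.cosh_sub,
      Real.sinh_add, Real.sinh_sub] at h2
    have c1 := Real.sin_sq_add_cos_sq (r / 2 * (π * ξ))
    have c2 := Real.sin_sq_add_cos_sq (π * ξ)
    have c3 := Real.cosh_sq (r / 2 * (π * h))
    have c4 := Real.cosh_sq (π * h)
    set X := Real.sin (r / 2 * (π * ξ))
    set X' := Real.cos (r / 2 * (π * ξ))
    set Y := Real.sin (π * ξ)
    set Y' := Real.cos (π * ξ)
    set P := Real.sinh (r / 2 * (π * h))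
    set P' := Real.cosh (r / 2 * (π * h))
    set Q := Real.sinh (π * h)
    set Q' := Real.cosh (π * h)
    have hX : X ^ 2 = 1 - X' ^ 2 := by linarith only [c1]
    have hY : Y ^ 2 = 1 - Y' ^ 2 := by linarith only [c2]
    have hP : P ^ 2 = P' ^ 2 - 1 := by linarith only [c3]
    have hQ : Q ^ 2 = Q' ^ 2 - 1 := by linarith only [c4]
    -- `|cos (a - i b)|^2 = cos^2 a + sinh^2 b`
    have k1 : (X' * Y' - X * Y) ^ 2 + (X * Y' + X' * Y) ^ 2 = 1 := by
      have : (X ^ 2 + X' ^ 2) * (Y ^ 2 + Y' ^ 2) = 1 := by rw [c1, c2]; ring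
      linear_combination this
    have k2 : (X' * Y' + X * Y) ^ 2 + (X * Y' - X' * Y) ^ 2 = 1 := by
      have : (X ^ 2 + X' ^ 2) * (Y ^ 2 + Y' ^ 2) = 1 := by rw [c1, c2]; ring
      linear_combination this
    have k3 : (P' * Q' + P * Q) ^ 2 - (P * Q' + P' * Q) ^ 2 = 1 := by
      have : (P' ^ 2 - P ^ 2) * (Q' ^ 2 - Q ^ 2) = 1 := by rw [hP, hQ]; ring
      linear_combination this
    have k4 : (P' * Q' - P * Q) ^ 2 - (P * Q' - P' * Q) ^ 2 = 1 := by
      have : (P' ^ 2 - P ^ 2) * (Q' ^ 2 - Q ^ 2) = 1 := by rw [hP, hQ]; ring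
      linear_combination this
    have m1 : (X' * Y' - X * Y) ^ 2 + (P * Q' + P' * Q) ^ 2 =
        (X' * Y' + X * Y) ^ 2 + (P * Q' - P' * Q) ^ 2 := by
      linear_combination h2 - (X' * Y' - X * Y) ^ 2 * k3 - (P * Q' + P' * Q) ^ 2 * k1 +
        (X' * Y' + X * Y) ^ 2 * k4 + (P * Q' - P' * Q) ^ 2 * k2
    linear_combination m1 / 4
  have hh2 : 0 < r / 2 * (π * h) := by positivity
  have hx2 : 0 < r / 2 * (π * ξ) := by positivity
  have hx3 : r / 2 * (π * ξ) < π / 2 := by nlinarith only [hxi, hpi]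
  have sX : 0 < Real.sin (r / 2 * (π * ξ)) := Real.sin_pos_of_pos_of_lt_pi hx2 (by linarith only [hx3, hx2])
  have cX : 0 < Real.cos (r / 2 * (π * ξ)) := Real.cos_pos_of_mem_Ioo ⟨by linarith only [hx3, hx2], hx3⟩
  have sY : 0 < Real.sin (π * ξ) :=
    Real.sin_pos_of_pos_of_lt_pi (by positivity) (by nlinarith only [hr4, hpi, hx3, hx2])
  have cY : 0 < Real.cos (π * ξ) :=
    Real.cos_pos_of_mem_Ioo ⟨by nlinarith, by nlinarith only [hr4, hpi, hx3, hx2]⟩
  have cP : 1 < Real.cosh (r / 2 * (π * h)) := Real.one_lt_cosh.2 hh2.ne'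
  have cQ : 1 < Real.cosh (π * h) := Real.one_lt_cosh.2 (by positivity)
  have sX1 := Real.sin_le_one (r / 2 * (π * ξ))
  have cY1 := Real.cos_le_one (π * ξ)
  set X := Real.sin (r / 2 * (π * ξ))
  set X' := Real.cos (r / 2 * (π * ξ))
  set Y := Real.sin (π * ξ)
  set Y' := Real.cos (π * ξ)
  set P := Real.sinh (r / 2 * (π * h))
  set P' := Real.cosh (r / 2 * (π * h))
  set Q := Real.sinh (π * h)
  set Q' := Real.cosh (π * h)
  have hB : 1 < P' * Q' := by nlinarith only [hx4, cQ, cP, hx]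
  have hC : X * Y' ≤ 1 := by nlinarith only [cY1, sX, hx4, hx, sX1]
  have hC0 : 0 < X * Y' := mul_pos sX cY
  have hCB : (X * Y') * (X * Y') < (P' * Q') * (P' * Q') := by nlinarith only [hC0, hC, hB, cY1, sX, hx4, cQ, cP, hx, sX1]
  have hA : 0 < X' * Y := mul_pos cX sY
  have h3 : (X * P * (Y' * Q)) * (P' * Q') < (X' * P' * (Y * Q')) * (P' * Q') := by
    have h4 : (X * P * (Y' * Q)) * (P' * Q') = (X' * Y) * ((X * Y') * (X * Y')) := by
      linear_combination (X * Y') * e1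
    have h5 : (X' * P' * (Y * Q')) * (P' * Q') = (X' * Y) * ((P' * Q') * (P' * Q')) := by ring
    rw [h4, h5]
    exact mul_lt_mul_of_pos_left hCB hA
  exact lt_of_mul_lt_mul_right h3 (by positivity)

/-- the case `0 ≤ t ≤ r / 2` -/
lemma re_pos_of_nonneg (hr : 4 ≤ r) (H : Saddle ((r : ℝ) / 2) (1 / r) h ξ) {t : ℝ} (h0 : 0 ≤ t)
    (ht : t ≤ r / 2) :
    Real.sin (t * (π * ξ)) * Real.sinh (t * (π * h)) *
        (Real.cos (π * ξ) * Real.sinh (π * h)) <
      Real.cos (t * (π * ξ)) * Real.cosh (t * (π * h)) *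
        (Real.sin (π * ξ) * Real.cosh (π * h)) := by
  have B := basic2 hr H
  have hpi := Real.pi_pos
  have hr4 : (4 : ℝ) ≤ r := by exact_mod_cast hr
  have hlast := re_pos_last hr H
  have hxi : r * ξ < 1 := by
    have := H.xlt
    rw [lt_div_iff₀ (by linarith only [hr4])] at this
    linarith only [this]
  have hh := B.hh
  have hx := B.xpos
  have hx4 := B.xlt
  have hh2 : 0 < r / 2 * (π * h) := by positivity
  have hx2 : 0 < r / 2 * (π * ξ) := by positivity
  have hx3 : r / 2 * (π * ξ) < π / 2 := by nlinarith only [hxi, hpi]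
  have hth : 0 ≤ t * (π * h) := by positivity
  have htx : 0 ≤ t * (π * ξ) := by positivity
  have hth2 : t * (π * h) ≤ r / 2 * (π * h) := mul_le_mul_of_nonneg_right ht (by positivity)
  have htx2 : t * (π * ξ) ≤ r / 2 * (π * ξ) := mul_le_mul_of_nonneg_right ht (by positivity)
  have s1 : Real.sin (t * (π * ξ)) ≤ Real.sin (r / 2 * (π * ξ)) :=
    Real.sin_le_sin_of_le_of_le_pi_div_two (by linarith only [htx, hx3, hx2]) hx3.le htx2
  have s0 : 0 ≤ Real.sin (t * (π * ξ)) := Real.sin_nonneg_of_nonneg_of_le_pi htx (by linarith only [htx2, hx3, hx2])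
  have c1 : Real.cos (r / 2 * (π * ξ)) ≤ Real.cos (t * (π * ξ)) :=
    Real.cos_le_cos_of_nonneg_of_le_pi htx (by linarith only [hx3, hx2]) htx2
  -- `sinh a / cosh a` is increasing
  have t1 : Real.sinh (t * (π * h)) * Real.cosh (r / 2 * (π * h)) ≤
      Real.sinh (r / 2 * (π * h)) * Real.cosh (t * (π * h)) := by
    have := Real.sinh_nonneg_iff.2 (by linarith only [hth2] : 0 ≤ r / 2 * (π * h) - t * (π * h))
    rw [Real.sinh_sub] at this
    linarith only [this]
  have cP : 0 < Real.cosh (r / 2 * (π * h)) := Real.cosh_pos _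
  have cT : 0 < Real.cosh (t * (π * h)) := Real.cosh_pos _
  have sT : 0 ≤ Real.sinh (t * (π * h)) := Real.sinh_nonneg_iff.2 hth
  have sY : 0 < Real.sin (π * ξ) :=
    Real.sin_pos_of_pos_of_lt_pi (by positivity) (by nlinarith only [hr4, hpi, hx3, hx2])
  have cY : 0 < Real.cos (π * ξ) :=
    Real.cos_pos_of_mem_Ioo ⟨by nlinarith, by nlinarith only [hr4, hpi, hx3, hx2]⟩
  have sQ : 0 < Real.sinh (π * h) := Real.sinh_pos_iff.2 (by positivity)
  have cQ : 0 < Real.cosh (π * h) := Real.cosh_pos _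
  have hYQ : 0 < Real.cos (π * ξ) * Real.sinh (π * h) := mul_pos cY sQ
  have hYQ' : 0 < Real.sin (π * ξ) * Real.cosh (π * h) := mul_pos sY cQ
  have k1 : Real.sin (t * (π * ξ)) * (Real.sinh (t * (π * h)) * Real.cosh (r / 2 * (π * h))) ≤
      Real.sin (r / 2 * (π * ξ)) * (Real.sinh (r / 2 * (π * h)) * Real.cosh (t * (π * h))) :=
    mul_le_mul s1 t1 (by positivity) (by linarith only [s0, s1])
  have k2 : (Real.sin (t * (π * ξ)) * Real.sinh (t * (π * h)) *
        (Real.cos (π * ξ) * Real.sinh (π * h))) * Real.cosh (r / 2 * (π * h)) ≤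
      (Real.sin (r / 2 * (π * ξ)) * Real.sinh (r / 2 * (π * h)) *
        (Real.cos (π * ξ) * Real.sinh (π * h))) * Real.cosh (t * (π * h)) := by
    have := mul_le_mul_of_nonneg_right k1 hYQ.le
    linarith only [this]
  have k3 : (Real.sin (r / 2 * (π * ξ)) * Real.sinh (r / 2 * (π * h)) *
        (Real.cos (π * ξ) * Real.sinh (π * h))) * Real.cosh (t * (π * h)) <
      (Real.cos (r / 2 * (π * ξ)) * Real.cosh (r / 2 * (π * h)) *
        (Real.sin (π * ξ) * Real.cosh (π * h))) * Real.cosh (t * (π * h)) :=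
    mul_lt_mul_of_pos_right hlast cT
  have k4 : (Real.cos (r / 2 * (π * ξ)) * Real.cosh (r / 2 * (π * h)) *
        (Real.sin (π * ξ) * Real.cosh (π * h))) * Real.cosh (t * (π * h)) ≤
      (Real.cos (t * (π * ξ)) * Real.cosh (t * (π * h)) *
        (Real.sin (π * ξ) * Real.cosh (π * h))) * Real.cosh (r / 2 * (π * h)) := by
    have := mul_le_mul_of_nonneg_right c1
      (by positivity : 0 ≤ Real.cosh (r / 2 * (π * h)) * Real.cosh (t * (π * h)) *
        (Real.sin (π * ξ) * Real.cosh (π * h)))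
    linarith only [this]
  exact lt_of_mul_lt_mul_right (lt_of_le_of_lt k2 (lt_of_lt_of_le k3 k4)) cP.le

/-- The shapes have positive imaginary part. -/
theorem vj_im_pos (hr : 4 ≤ r) (H : Saddle ((r : ℝ) / 2) (1 / r) h ξ) {j : ℤ} (h0 : 0 ≤ j)
    (h1 : j ≤ r) : 0 < (vj r h ξ j).im := by
  have B := basic2 hr H
  have hpi := Real.pi_pos
  have hr4 : (4 : ℝ) ≤ r := by exact_mod_cast hr
  have hxi : r * ξ < 1 := by
    have := H.xlt
    rw [lt_div_iff₀ (by linarith only [hr4])] at this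
    linarith
  have hh := B.hh
  have hx := B.xpos
  have hx4 := B.xlt
  -- reduce to `0 ≤ j - r / 2`
  wlog hj : (r : ℝ) / 2 ≤ j generalizing j with W
  · push Not at hj
    have := W (j := r - j) (by omega) (by omega) (by push_cast; linarith only [hj])
    unfold vj at this ⊢
    rwa [aj_symm] at this
  obtain ⟨t, ht⟩ : ∃ t : ℝ, t = j - r / 2 := ⟨_, rfl⟩
  have t0 : 0 ≤ t := by rw [ht]; linarith only [hj]
  have t1 : t ≤ r / 2 := by
    have : (j : ℝ) ≤ r := by exact_mod_cast h1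
    rw [ht]; linarith only [this]
  have hre := re_pos_of_nonneg hr H t0 t1
  have ea : aj r h ξ j = Complex.cos (((t * (π * ξ) : ℝ) : ℂ) - ((t * (π * h) : ℝ) : ℂ) * I) := by
    unfold aj; congr 1; rw [ht]; push_cast; ring
  have es : ss h ξ = Complex.sin (((π * ξ : ℝ) : ℂ) - ((π * h : ℝ) : ℂ) * I) := by
    unfold ss; congr 1; push_cast; ring
  have hs0 := ss_ne hh ξ
  have hs1 : 0 < Complex.normSq (ss h ξ) := Complex.normSq_pos.2 hs0
  have hx2 : 0 < r / 2 * (π * ξ) := by positivity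
  have hx3 : r / 2 * (π * ξ) < π / 2 := by nlinarith only [hxi, hpi]
  have hth : 0 ≤ t * (π * h) := by positivity
  have htx : 0 ≤ t * (π * ξ) := by positivity
  have htx2 : t * (π * ξ) ≤ r / 2 * (π * ξ) := mul_le_mul_of_nonneg_right t1 (by positivity)
  have s0 : 0 ≤ Real.sin (t * (π * ξ)) := Real.sin_nonneg_of_nonneg_of_le_pi htx (by linarith only [htx2, hx3, hx2])
  have c0 : 0 < Real.cos (t * (π * ξ)) := Real.cos_pos_of_mem_Ioo ⟨by linarith only [htx, hx3, hx2], by linarith only [htx2, hx3]⟩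
  have cT : 0 < Real.cosh (t * (π * h)) := Real.cosh_pos _
  have sT : 0 ≤ Real.sinh (t * (π * h)) := Real.sinh_nonneg_iff.2 hth
  have sY : 0 < Real.sin (π * ξ) :=
    Real.sin_pos_of_pos_of_lt_pi (by positivity) (by nlinarith only [hr4, hpi, hx3, hx2])
  have cY : 0 < Real.cos (π * ξ) :=
    Real.cos_pos_of_mem_Ioo ⟨by nlinarith, by nlinarith only [hr4, hpi, hx3, hx2]⟩
  have sQ : 0 < Real.sinh (π * h) := Real.sinh_pos_iff.2 (by positivity)
  have cQ : 0 < Real.cosh (π * h) := Real.cosh_pos _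
  have q1 : (aj r h ξ j / ss h ξ).re = (Real.cos (t * (π * ξ)) * Real.cosh (t * (π * h)) *
        (Real.sin (π * ξ) * Real.cosh (π * h)) - Real.sin (t * (π * ξ)) * Real.sinh (t * (π * h)) *
        (Real.cos (π * ξ) * Real.sinh (π * h))) / Complex.normSq (ss h ξ) := by
    rw [Complex.div_re, ea, (cos_re_im _ _).1, (cos_re_im _ _).2]
    have : (ss h ξ).re = Real.sin (π * ξ) * Real.cosh (π * h) := by
      rw [es, (sin_re_im _ _).1]
    have h2 : (ss h ξ).im = -(Real.cos (π * ξ) * Real.sinh (π * h)) := by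
      rw [es, (sin_re_im _ _).2]
    rw [this, h2]
    ring
  have q2 : (aj r h ξ j / ss h ξ).im = (Real.sin (t * (π * ξ)) * Real.sinh (t * (π * h)) *
        (Real.sin (π * ξ) * Real.cosh (π * h)) + Real.cos (t * (π * ξ)) * Real.cosh (t * (π * h)) *
        (Real.cos (π * ξ) * Real.sinh (π * h))) / Complex.normSq (ss h ξ) := by
    rw [Complex.div_im, ea, (cos_re_im _ _).1, (cos_re_im _ _).2]
    have : (ss h ξ).re = Real.sin (π * ξ) * Real.cosh (π * h) := by
      rw [es, (sin_re_im _ _).1]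
    have h2 : (ss h ξ).im = -(Real.cos (π * ξ) * Real.sinh (π * h)) := by
      rw [es, (sin_re_im _ _).2]
    rw [this, h2]
    ring
  have p1 : 0 < (aj r h ξ j / ss h ξ).re := by
    rw [q1]; exact div_pos (by linarith only [hre]) hs1
  have p2 : 0 < (aj r h ξ j / ss h ξ).im := by
    rw [q2]; apply div_pos _ hs1; positivity
  unfold vj
  rw [sq, Complex.mul_im]
  positivity

end Pool.Agent.Helper96.TB
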