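import Pool.Agent.Helper9.TB.RDefs2
import Pool.Agent.Helper9.Unif

/-!
# Riemann sums for the saddle point analysis
-/

namespace Pool.Agent.Helper9.TB

open Finset MeasureTheory

lemma log_lip {c a b : ℝ} (hc : 0 < c) (ha : c ≤ a) (hb : c ≤ b) :
    |Real.log a - Real.log b| ≤ |a - b| / c := by
  have key : ∀ a b : ℝ, c ≤ a → c ≤ b → Real.log a - Real.log b ≤ |a - b| / c := by
    intro a b ha hb
    have hb0 : 0 < b := hc.trans_le hb
    have ha0 : 0 < a := hc.trans_le ha
    rw [← Real.log_div ha0.ne' hb0.ne']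
    have h1 := Real.log_le_sub_one_of_pos (div_pos ha0 hb0)
    have h2 : a / b - 1 = (a - b) / b := by field_simp
    rw [h2] at h1
    calc Real.log (a / b) ≤ (a - b) / b := h1
      _ ≤ |a - b| / b := by gcongr; exact le_abs_self _
      _ ≤ |a - b| / c := by gcongr
  rw [abs_le]
  constructor
  · have := key b a hb ha
    rw [abs_sub_comm] at this
    linarith
  · exact key a b ha hb

lemma abs_cos_sub_cos_le' (x y : ℝ) : |Real.cos x - Real.cos y| ≤ |x - y| := by
  rw [Real.cos_sub_cos]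
  rw [abs_mul, abs_mul]
  have h1 := Real.abs_sin_le_one ((x + y) / 2)
  have h2 : |Real.sin ((x - y) / 2)| ≤ |(x - y) / 2| := Real.abs_sin_le_abs
  have h3 : |(x - y) / 2| = |x - y| / 2 := by rw [abs_div, abs_two]
  rw [h3] at h2
  have h4 : |(-2 : ℝ)| = 2 := by norm_num
  rw [h4]
  calc 2 * |Real.sin ((x + y) / 2)| * |Real.sin ((x - y) / 2)| ≤ 2 * 1 * (|x - y| / 2) := by
        gcongr
    _ = |x - y| := by ring

lemma cosh_gap {δ : ℝ} (hδ : 0 < δ) {h : ℝ} (hh : δ ≤ h) (u : ℝ) :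
    Real.cosh (2 * Real.pi * δ) - 1 ≤ Real.cosh (2 * Real.pi * h) + Real.cos (2 * Real.pi * u) := by
  have h1 : Real.cosh (2 * Real.pi * δ) ≤ Real.cosh (2 * Real.pi * h) := by
    rw [Real.cosh_le_cosh, abs_of_pos (by positivity),
      abs_of_pos (by have := hδ.trans_le hh; positivity)]
    gcongr
  have h2 := Real.neg_one_le_cos (2 * Real.pi * u)
  linarith

lemma cosh_gap_pos {δ : ℝ} (hδ : 0 < δ) : 0 < Real.cosh (2 * Real.pi * δ) - 1 := by
  have : 1 < Real.cosh (2 * Real.pi * δ) := Real.one_lt_cosh.mpr (by positivity)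
  linarith

/-- uniform Lipschitz bound of `ee h` -/
lemma ee_lip {δ : ℝ} (hδ : 0 < δ) {h : ℝ} (hh : δ ≤ h) (u v : ℝ) :
    |ee h u - ee h v| ≤ Real.pi / (Real.cosh (2 * Real.pi * δ) - 1) * |u - v| := by
  have hc := cosh_gap_pos hδ
  have h1 := cosh_gap hδ hh u
  have h2 := cosh_gap hδ hh v
  unfold ee
  rw [← sub_div, abs_div, abs_two]
  have h3 := log_lip (c := 2 * (Real.cosh (2 * Real.pi * δ) - 1)) (by linarith)
    (a := 2 * (Real.cosh (2 * Real.pi * h) + Real.cos (2 * Real.pi * u))) (by linarith)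
    (b := 2 * (Real.cosh (2 * Real.pi * h) + Real.cos (2 * Real.pi * v))) (by linarith)
  have h4 : |2 * (Real.cosh (2 * Real.pi * h) + Real.cos (2 * Real.pi * u)) -
      2 * (Real.cosh (2 * Real.pi * h) + Real.cos (2 * Real.pi * v))| ≤
      4 * Real.pi * |u - v| := by
    have e : 2 * (Real.cosh (2 * Real.pi * h) + Real.cos (2 * Real.pi * u)) -
      2 * (Real.cosh (2 * Real.pi * h) + Real.cos (2 * Real.pi * v)) =
      2 * (Real.cos (2 * Real.pi * u) - Real.cos (2 * Real.pi * v)) := by ring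
    rw [e, abs_mul, abs_two]
    have h5 := abs_cos_sub_cos_le' (2 * Real.pi * u) (2 * Real.pi * v)
    have h6 : |2 * Real.pi * u - 2 * Real.pi * v| = 2 * Real.pi * |u - v| := by
      rw [← mul_sub, abs_mul, abs_of_pos (by positivity)]
    rw [h6] at h5
    linarith
  calc |Real.log (2 * (Real.cosh (2 * Real.pi * h) + Real.cos (2 * Real.pi * u))) -
        Real.log (2 * (Real.cosh (2 * Real.pi * h) + Real.cos (2 * Real.pi * v)))| / 2
      ≤ (4 * Real.pi * |u - v| / (2 * (Real.cosh (2 * Real.pi * δ) - 1))) / 2 := by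
        gcongr
        exact h3.trans (by gcongr)
    _ = Real.pi / (Real.cosh (2 * Real.pi * δ) - 1) * |u - v| := by
        field_simp; ring

lemma ee_cont {h : ℝ} (hh : 0 < h) : Continuous (ee h) := by
  unfold ee
  apply Continuous.div_const
  apply Continuous.log
  · fun_prop
  · intro u
    have h1 := cosh_gap hh le_rfl u
    have h2 := cosh_gap_pos hh
    have : 0 < 2 * (Real.cosh (2 * Real.pi * h) + Real.cos (2 * Real.pi * u)) := by linarith
    exact this.ne'

lemma mid_riemann {g : ℝ → ℝ} {L : ℝ} (hL : 0 ≤ L) (hg : ∀ x y, |g x - g y| ≤ L * |x - y|)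
    (hgc : Continuous g) {N l m : ℕ} (hN : 1 ≤ N) (hlm : l ≤ m) :
    |(∑ k ∈ Ico l m, g ((2 * k + 1) / (2 * N))) - N * ∫ x in ((l : ℝ) / N)..((m : ℝ) / N), g x| ≤
      L / (2 * N) * (m - l : ℕ) := by
  have hNR : (0 : ℝ) < N := by positivity
  have h1 : ∫ x in ((l : ℝ) / N)..((m : ℝ) / N), g x =
      ∑ k ∈ Ico l m, ∫ x in ((k : ℝ) / N)..(((k + 1 : ℕ) : ℝ) / N), g x := by
    rw [intervalIntegral.sum_integral_adjacent_intervals_Ico hlm]
    intro k _
    exact hgc.intervalIntegrable _ _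
  rw [h1, mul_sum, ← sum_sub_distrib]
  refine (abs_sum_le_sum_abs _ _).trans ?_
  have h2 : ∀ k ∈ Ico l m, |g ((2 * k + 1) / (2 * N)) -
      N * ∫ x in ((k : ℝ) / N)..(((k + 1 : ℕ) : ℝ) / N), g x| ≤ L / (2 * N) := by
    intro k _
    have e0 : ((k + 1 : ℕ) : ℝ) / N - (k : ℝ) / N = 1 / N := by push_cast; ring
    have e1 : g ((2 * k + 1) / (2 * N)) -
        N * ∫ x in ((k : ℝ) / N)..(((k + 1 : ℕ) : ℝ) / N), g x =
        N * ∫ x in ((k : ℝ) / N)..(((k + 1 : ℕ) : ℝ) / N), (g ((2 * k + 1) / (2 * N)) - g x) := by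
      rw [intervalIntegral.integral_sub intervalIntegrable_const (hgc.intervalIntegrable _ _),
        intervalIntegral.integral_const, e0, smul_eq_mul]
      field_simp
    rw [e1, abs_mul, Nat.abs_cast]
    have h3 := intervalIntegral.norm_integral_le_of_norm_le_const
      (f := fun x => g ((2 * k + 1) / (2 * N)) - g x) (a := (k : ℝ) / N)
      (b := ((k + 1 : ℕ) : ℝ) / N) (C := L * (1 / (2 * N))) (by
        intro x hx
        have hle : (k : ℝ) / N ≤ ((k + 1 : ℕ) : ℝ) / N := by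
          rw [← sub_nonneg, e0]; positivity
        rw [Set.uIoc_of_le hle] at hx
        rw [Real.norm_eq_abs]
        refine (hg _ _).trans ?_
        gcongr
        have a1 := hx.1
        have a2 := hx.2
        have e2 : (2 * (k : ℝ) + 1) / (2 * N) = (k : ℝ) / N + 1 / (2 * N) := by field_simp
        have e3 : ((k + 1 : ℕ) : ℝ) / N = (k : ℝ) / N + 2 * (1 / (2 * N)) := by
          push_cast; field_simp
        rw [e3] at a2
        rw [e2, abs_le]
        constructor <;> linarith only [a2, a1])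
    rw [e0, Real.norm_eq_abs, abs_of_pos (show (0 : ℝ) < 1 / N by positivity)] at h3
    calc (N : ℝ) * |∫ x in ((k : ℝ) / N)..(((k + 1 : ℕ) : ℝ) / N),
          (g ((2 * k + 1) / (2 * N)) - g x)| ≤ N * (L * (1 / (2 * N)) * (1 / N)) := by
          gcongr
      _ = L / (2 * N) := by field_simp
  refine (sum_le_sum h2).trans ?_
  rw [sum_const, Nat.card_Ico, nsmul_eq_mul, mul_comm]

theorem riem_ee {δ : ℝ} (hδ : 0 < δ) : ∃ C : ℝ, ∀ (N l m : ℕ), 1 ≤ N → l ≤ m → m ≤ N →
    ∀ h ≥ δ, ∀ ξ : ℝ,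
    |(∑ k ∈ Finset.Ico l m, (ee h (ξ + (2 * k + 1) / (2 * N)) + ee h (ξ - (2 * k + 1) / (2 * N)))) -
      N * ∫ x in ((l : ℝ) / N)..((m : ℝ) / N), (ee h (ξ + x) + ee h (ξ - x))| ≤ C := by
  set K := Real.pi / (Real.cosh (2 * Real.pi * δ) - 1) with hK
  have hK0 : 0 ≤ K := (div_pos Real.pi_pos (cosh_gap_pos hδ)).le
  refine ⟨K, ?_⟩
  intro N l m hN hlm hmN h hh ξ
  have hNR : (0 : ℝ) < N := by positivity
  have hc := ee_cont (hδ.trans_le hh)
  have h1 := mid_riemann (g := fun x => ee h (ξ + x) + ee h (ξ - x)) (L := 2 * K) (by positivity)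
    (by
      intro x y
      have a1 := ee_lip hδ hh (ξ + x) (ξ + y)
      have a2 := ee_lip hδ hh (ξ - x) (ξ - y)
      rw [← hK] at a1 a2
      have e1 : ξ + x - (ξ + y) = x - y := by ring
      have e2 : ξ - x - (ξ - y) = -(x - y) := by ring
      rw [e1] at a1
      rw [e2, abs_neg] at a2
      have e3 : ee h (ξ + x) + ee h (ξ - x) - (ee h (ξ + y) + ee h (ξ - y)) =
        (ee h (ξ + x) - ee h (ξ + y)) + (ee h (ξ - x) - ee h (ξ - y)) := by ring
      rw [e3]
      refine (abs_add_le _ _).trans ?_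
      linarith) (by fun_prop) hN hlm
  refine h1.trans ?_
  have h2 : ((m - l : ℕ) : ℝ) ≤ N := by exact_mod_cast (Nat.sub_le m l).trans hmN
  calc 2 * K / (2 * N) * ((m - l : ℕ) : ℝ) ≤ 2 * K / (2 * N) * N := by gcongr
    _ = K := by field_simp

open Pool.Agent.Helper9.Kashaev in
lemma log_sn_abs' {N t : ℕ} (h0 : 0 < t) (h1 : t < N) :
    |Real.log (sn N t)| ≤ Real.log N := by
  by_cases h : 2 * t ≤ N
  · exact log_sn_abs h0 h
  · have h2 := sn_refl (N := N) (by omega) (t : ℤ)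
    have h3 : ((N : ℤ) - t) = ((N - t : ℕ) : ℤ) := by omega
    rw [← h2, h3]
    exact log_sn_abs (by omega) (by omega)

open Pool.Agent.Helper9.Kashaev in
lemma int_sb {N : ℕ} (hN : 0 < N) (l m : ℕ) :
    (N : ℝ) * ∫ x in ((l : ℝ) / N)..((m : ℝ) / N), 2 * Real.log (2 * Real.sin (Real.pi * x)) =
      2 * (N / Real.pi * HH (Real.pi / N * m) - N / Real.pi * HH (Real.pi / N * l)) := by
  have hNR : (0 : ℝ) < N := by exact_mod_cast hN
  have h1 : (fun x : ℝ => 2 * Real.log (2 * Real.sin (Real.pi * x))) =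
      fun x => 2 * (fun t => Real.log |2 * Real.sin t|) (Real.pi * x) := by
    funext x
    simp only
    rw [Real.log_abs]
  rw [h1, intervalIntegral.integral_const_mul,
    intervalIntegral.integral_comp_mul_left (fun t => Real.log |2 * Real.sin t|) Real.pi_ne_zero]
  have e : ∀ k : ℕ, Real.pi * ((k : ℝ) / N) = Real.pi / N * k := by intro k; ring
  rw [e, e]
  unfold HH
  rw [← intervalIntegral.integral_interval_sub_left (integrable_h _ _) (integrable_h _ _),
    smul_eq_mul]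
  ring

open Pool.Agent.Helper9.Kashaev in
lemma unif_pred {N m : ℕ} (hN : 2 ≤ N) (h1 : 1 ≤ m) (hm : m ≤ N) :
    |logS N (m - 1) - N / Real.pi * HH (Real.pi / N * m)| ≤ 1 + 5 * Real.log N := by
  have hNR : (2 : ℝ) ≤ N := by exact_mod_cast hN
  have hlogN : 0 ≤ Real.log N := Real.log_nonneg (by linarith)
  rcases Nat.lt_or_ge m N with h | h
  · have h2 := abs_le.mp (unif hN h)
    have h3 : logS N m = logS N (m - 1) + Real.log (sn N m) := by
      obtain ⟨j, rfl⟩ : ∃ j, m = j + 1 := ⟨m - 1, by omega⟩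
      rw [Nat.add_sub_cancel]
      unfold logS; rw [sum_range_succ]
      push_cast
      rfl
    have h4 := abs_le.mp (log_sn_abs' (N := N) (t := m) (by omega) h)
    rw [h3] at h2
    rw [abs_le]
    constructor <;> linarith only [h4, h2]
  · have : m = N := by omega
    subst this
    rw [logS_last hN]
    have e : Real.pi / (m : ℝ) * m = Real.pi := by field_simp
    rw [e, HH_pi, mul_zero, sub_zero, abs_of_nonneg hlogN]
    linarith

open Pool.Agent.Helper9.Kashaev in
lemma sb_eq_sn (N : ℕ) (k : ℕ) : sb ((k : ℝ) / N) = sn N (k : ℤ) := by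
  unfold sb sn
  push_cast
  congr 2; ring

open Pool.Agent.Helper9.Kashaev in
theorem riem_sb : ∃ C : ℝ, ∀ (N l m : ℕ), 2 ≤ N → l < m → m ≤ N →
    |(∑ k ∈ Finset.Ico (l + 1) m, 2 * Real.log (sb (k / N))) -
      N * ∫ x in ((l : ℝ) / N)..((m : ℝ) / N), 2 * Real.log (2 * Real.sin (Real.pi * x))| ≤
      C * (1 + Real.log N) := by
  refine ⟨18, ?_⟩
  intro N l m hN hlm hmN
  have hNR : (2 : ℝ) ≤ N := by exact_mod_cast hN
  have hlogN : 0 ≤ Real.log N := Real.log_nonneg (by linarith)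
  have h1 : (∑ k ∈ Finset.Ico (l + 1) m, 2 * Real.log (sb (k / N))) =
      2 * (logS N (m - 1) - logS N l) := by
    have e1 : Finset.Ico (l + 1) m = Finset.Ico (l + 1) (m - 1 + 1) := by
      rw [Nat.sub_add_cancel (by omega)]
    rw [e1, ← Finset.sum_Ico_add' (fun k : ℕ => 2 * Real.log (sb ((k : ℝ) / N))) l (m - 1) 1,
      ← mul_sum]
    congr 1
    rw [Finset.sum_Ico_eq_sub _ (by omega)]
    unfold logS
    congr 1
    · apply sum_congr rfl
      intro k _
      rw [sb_eq_sn]; push_cast; rfl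
    · apply sum_congr rfl
      intro k _
      rw [sb_eq_sn]; push_cast; rfl
  rw [h1, int_sb (by omega)]
  have h2 := abs_le.mp (unif_pred hN (show 1 ≤ m by omega) hmN)
  have h3 := abs_le.mp (unif hN (show l < N by omega))
  rw [abs_le]
  constructor <;> linarith only [h3, h2]

open Pool.Agent.Helper9.Kashaev in
lemma mid_sum (N : ℕ) (m : ℕ) :
    logS (2 * N) (2 * m) = (∑ k ∈ range m, Real.log (sb ((2 * k + 1) / (2 * N)))) + logS N m := by
  induction m with
  | zero => simp [logS]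
  | succ m ih =>
    rw [show 2 * (m + 1) = 2 * m + 1 + 1 by ring]
    unfold logS at ih ⊢
    rw [sum_range_succ, sum_range_succ, ih, sum_range_succ, sum_range_succ]
    have e1 : sn (2 * N) (((2 * m : ℕ) : ℤ) + 1) = sb ((2 * m + 1) / (2 * N)) := by
      unfold sn sb; push_cast; congr 2; ring
    have e2 : sn (2 * N) (((2 * m + 1 : ℕ) : ℤ) + 1) = sn N ((m : ℤ) + 1) := by
      unfold sn; push_cast; congr 2
      rw [show (2 * (m : ℝ) + 1 + 1) = 2 * (m + 1) by ring, mul_left_comm Real.pi 2,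
        mul_div_mul_left _ _ (by norm_num : (2 : ℝ) ≠ 0)]
    rw [e1, e2]
    ring

open Pool.Agent.Helper9.Kashaev in
lemma mid_unif {N m : ℕ} (hN : 2 ≤ N) (hm : m ≤ N) :
    |(∑ k ∈ range m, Real.log (sb ((2 * k + 1) / (2 * N)))) -
      N / Real.pi * HH (Real.pi / N * m)| ≤ 8 * (1 + Real.log N) := by
  have hNR : (2 : ℝ) ≤ N := by exact_mod_cast hN
  have hlogN : 0 ≤ Real.log N := Real.log_nonneg (by linarith)
  have hlog2 : Real.log 2 ≤ 1 := by
    have := Real.log_two_lt_d9; linarith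
  have hlog20 : 0 ≤ Real.log 2 := Real.log_nonneg (by norm_num)
  have hlog2N : Real.log ((2 * N : ℕ) : ℝ) = Real.log 2 + Real.log N := by
    push_cast
    rw [Real.log_mul (by norm_num) (by positivity)]
  rcases Nat.lt_or_ge m N with h | h
  · have h1 := mid_sum N m
    have h2 := abs_le.mp (unif (N := 2 * N) (m := 2 * m) (by omega) (by omega))
    have h3 := abs_le.mp (unif hN h)
    have e1 : Real.pi / ((2 * N : ℕ) : ℝ) * ((2 * m : ℕ) : ℝ) = Real.pi / N * m := by
      push_cast; field_simp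
    have e2 : ((2 * N : ℕ) : ℝ) / Real.pi = 2 * (N / Real.pi) := by push_cast; ring
    rw [h1, e1, e2, hlog2N] at h2
    rw [abs_le]
    constructor <;> linarith only [h3, h2, hlog2]
  · have : m = N := by omega
    subst this
    obtain ⟨j, rfl⟩ : ∃ j, m = j + 1 := ⟨m - 1, by omega⟩
    have h1 := mid_sum (j + 1) j
    have h2 := logS_last (N := 2 * (j + 1)) (by omega)
    have h3 := logS_last (N := j + 1) hN
    have h4 : logS (2 * (j + 1)) (2 * (j + 1) - 1) = logS (2 * (j + 1)) (2 * j) +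
        Real.log (sb ((2 * j + 1) / (2 * ((j + 1 : ℕ) : ℝ)))) := by
      rw [show 2 * (j + 1) - 1 = 2 * j + 1 by omega]
      unfold logS; rw [sum_range_succ]
      congr 2
      unfold sn sb; push_cast; congr 2; ring
    rw [Nat.add_sub_cancel] at h3
    have e : Real.pi / ((j + 1 : ℕ) : ℝ) * ((j + 1 : ℕ) : ℝ) = Real.pi := by field_simp
    rw [e, HH_pi, mul_zero, sub_zero, sum_range_succ]
    have h5 : (∑ k ∈ range j, Real.log (sb ((2 * k + 1) / (2 * ((j + 1 : ℕ) : ℝ))))) +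
        Real.log (sb ((2 * j + 1) / (2 * ((j + 1 : ℕ) : ℝ)))) = Real.log 2 := by
      rw [hlog2N] at h2
      linarith only [h4, h3, h2, h1]
    rw [h5, abs_of_nonneg hlog20]
    linarith

theorem riem_mid : ∃ C : ℝ, ∀ (N l m : ℕ), 2 ≤ N → l ≤ m → m ≤ N →
    |(∑ k ∈ Finset.Ico l m, 2 * Real.log (sb ((2 * k + 1) / (2 * N)))) -
      N * ∫ x in ((l : ℝ) / N)..((m : ℝ) / N), 2 * Real.log (2 * Real.sin (Real.pi * x))| ≤
      C * (1 + Real.log N) := by
  refine ⟨32, ?_⟩
  intro N l m hN hlm hmN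
  rw [int_sb (by omega), ← mul_sum, Finset.sum_Ico_eq_sub _ hlm]
  have h1 := abs_le.mp (mid_unif hN hmN)
  have h2 := abs_le.mp (mid_unif hN (hlm.trans hmN))
  rw [abs_le]
  constructor <;> linarith only [h2, h1]

end Pool.Agent.Helper9.TB
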